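import Pool.Agent.Q72.AL.Stm3

/-!
# Project AL (MP_f0209c_nt, helper72), second part: the rate `1 / log γ`

In the first part the lattice error `e^{iP(t-t0)} - 1 = θ_t` was estimated by Cauchy-Schwarz over the `≈ log X` zeros near `T`, which costs `√(log X)`.
Now `θ` is Lipschitz (constant `δ`), and multiplication of the coefficients of an exponential sum by a Lipschitz function costs nothing in mean square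
(`J_SOB`, `J_ELOC`: reproducing kernel `e^{-|s-t|}`, Fourier transform `1/(1+x²)`). The sum is needed near `v = -log X` only, where it is controlled on both sides.
-/

set_option autoImplicit false

open Complex MeasureTheory Filter Topology Set
open H345 (Zo aa XX)

namespace Pool.Agent.Q72.AL

noncomputable section

/-- the hypothesis on a large window, lattice error `δ |t - t'|` (no `√(log X)`) -/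
structure HYPB (a δ X : ℝ) : Prop where
  simple : ∀ t ∈ Zo, X / 16 ≤ t → t ≤ 24 * X → deriv riemannZeta (1 / 2 + (t : ℂ) * I) ≠ 0
  spaced : ∀ t ∈ Zo, ∀ t' ∈ Zo, X / 16 ≤ t → t < t' → t' ≤ 24 * X → 1 / Real.log (X / 16) ≤ t' - t
  latt : ∀ T : ℝ, X / 4 ≤ T → T ≤ 8 * X → ∀ t ∈ Zo, ∀ t' ∈ Zo, |t - T| ≤ Real.log X ^ 2 →
    |t' - T| ≤ Real.log X ^ 2 →
    ‖cexp (((2 * (Real.log T + a) * (t - t') : ℝ) : ℂ) * I) - 1‖ ≤ δ * |t - t'|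

/-- `Z`: zeros in `[X/12, 20X]`, the explicit formula holds for `T ∈ [X/4, 8X]` -/
structure EFB (C X : ℝ) (Z : Finset ℝ) : Prop where
  sub : ∀ t ∈ Z, t ∈ Zo ∧ X / 12 ≤ t ∧ t ≤ 20 * X
  ef : ∀ κ v T : ℝ, 1 ≤ κ → κ ≤ 2 → X / 4 ≤ T → T ≤ 8 * X → |v| ≤ 3 * Real.log X →
    ‖DD κ v T - ZZ Z κ v T‖ ≤ C * (1 + Real.exp (-v)) / X

/-- the weighted mean square of `ZZ` around `w` -/
def QQ (Z : Finset ℝ) (w T : ℝ) : ℝ := ∫ x : ℝ, (1 + x ^ 2)⁻¹ * ‖ZZ Z 2 (w + x) T‖ ^ 2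

/-- EFB. As `J_EF` (`Pool.Agent.Q166.AL.ef`) with good heights `U1 ∈ [X/12, X/12 + 1]`, `U2 ∈ [16X, 16X + 1]`, so `|U - T| ≥ X/7`; `Z` the zeros between them. -/
def J_EFB : Prop := RiemannHypothesis → ∃ C X0 : ℝ, 0 < C ∧ ∀ X : ℝ, X0 ≤ X →
  (∀ t ∈ Zo, X / 16 ≤ t → t ≤ 24 * X → deriv riemannZeta (1 / 2 + (t : ℂ) * I) ≠ 0) →
  ∃ Z : Finset ℝ, EFB C X Z

/-- ABB. PROOF from AB: apply `J_AB` at `X' = X/4`, `X`, `4X` (`t ∈ [X'/3, 5X']`; note `1/log X' ≤ 1/log (X/16)`). -/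
def J_ABB : Prop := RiemannHypothesis → ∃ C X0 : ℝ, 0 < C ∧ ∀ X : ℝ, X0 ≤ X →
  (∀ t ∈ Zo, X / 16 ≤ t → t ≤ 24 * X → deriv riemannZeta (1 / 2 + (t : ℂ) * I) ≠ 0) →
  (∀ t ∈ Zo, ∀ t' ∈ Zo, X / 16 ≤ t → t < t' → t' ≤ 24 * X → 1 / Real.log (X / 16) ≤ t' - t) →
  ∀ t ∈ Zo, X / 12 ≤ t → t ≤ 20 * X → ‖aa t‖ ≤ Real.exp (C * Real.log X ^ 2)

/-- SOB. PROOF. Order `Z`: `t_1 < ... < t_n`, `ρ_k = e^{-(t_{k+1} - t_k)}`, `B_k = Σ_{j ≥ k} b_j e^{-(t_j - t_k)}` (`B_{n+1} = 0`), so `b_k = B_k - ρ_k B_{k+1}` and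
`Σ b_k g_k = B_1 g_1 + Σ_{k<n} B_{k+1} (g_{k+1} - ρ_k g_k)`; also `Σ_{j,k} b_j conj(b_k) e^{-|t_j - t_k|} = |B_1|² + Σ_{k<n} (1 - ρ_k²) |B_{k+1}|²` (induction on `n`; adding a new
smallest point `t_0`: `B_0 = b_0 + ρ_0 B_1`, `|B_0|² + (1 - ρ_0²)|B_1|² = |b_0|² + 2 Re(b_0 conj(ρ_0 B_1)) + |B_1|²`). Cauchy-Schwarz: `|Σ b_k g_k|² ≤
(|g_1|² + Σ |g_{k+1} - ρ_k g_k|²/(1 - ρ_k²)) · Σ_{j,k} b_j conj(b_k) e^{-|t_j - t_k|}`. The first factor is `≤ C A²`: with `Δ = t_{k+1} - t_k`,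
`|g_{k+1} - ρ_k g_k| ≤ |g_{k+1} - g_k| + (1-ρ_k)|g_k| ≤ 2A min(Δ, 1)` and `1 - ρ_k² ≥ min(Δ,1)/2`, so each term is `≤ 8 A² min(Δ_k,1)`, and only the `k` with `t_k` or `t_{k+1}` in
`[c-1, c+1]` count: total `≤ 8A²(2 + 1 + 1)`. Finally `Σ b_j conj(b_k) e^{-|t_j-t_k|} = (1/π) ∫ |Σ b_t e^{itx}|² dx/(1+x²)` (`∫ e^{itx}/(1+x²) dx = π e^{-|t|}`; search the library for
the Fourier transform of `1/(1+x²)`; or Fourier inversion for `e^{-|t|}`). -/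
def J_SOB : Prop := ∃ C : ℝ, 0 < C ∧ ∀ (Z : Finset ℝ) (b g : ℝ → ℂ) (A c : ℝ), 0 ≤ A →
  (∀ t ∈ Z, ‖g t‖ ≤ A) → (∀ s ∈ Z, ∀ t ∈ Z, ‖g s - g t‖ ≤ A * |s - t|) →
  (∀ t ∈ Z, 1 < |t - c| → g t = 0) →
  ‖∑ t ∈ Z, b t * g t‖ ^ 2 ≤
    C * A ^ 2 * ∫ x : ℝ, (1 + x ^ 2)⁻¹ * ‖∑ t ∈ Z, b t * cexp (((t * x : ℝ) : ℂ) * I)‖ ^ 2

/-- ELOC. PROOF from SOB: partition of unity `Σ_{j ∈ ℤ} ψ(u - j) = 1`, `ψ(u) = max 0 (1 - |u|)`, `u = t - T`, `|u| ≤ R`, only `|j| ≤ N = ⌈R⌉` occur. For fixed `j` put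
`b t = α t e^{-2(u-j)²} e^{i(u-j)v}` and `g t = ψ(u-j) e^{-2u² + 2(u-j)²} θ t` (`-2u²+2(u-j)² = -2j² - 4j(u-j)`): `|g| ≤ A` and `|g s - g t| ≤ A |s - t|` with
`A = C' δ (1+|j|)² e^{-2j² + 4|j|}` (for `|u_t - j| > 1` `g t = 0`; if both are `≤ 1` product rule; if one is outside, `ψ(u_s - j) ≤ |s - t|`). The `j`-part of the sum is `Σ b t g t e^{ijv}`, so by SOB
`|part|² ≤ C A² ∫ (1+x²)⁻¹ ‖Σ b t e^{itx}‖²`, and `‖Σ b t e^{itx}‖ = ‖Σ α t e^{-2(u-j)²} e^{i(u-j)(v+x)}‖`. Sum over `j` with weights `2^{|j|}` (Cauchy-Schwarz);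
`2^{|j|}(1+|j|)^4 e^{-4j²+8|j|} ≤ C'' e^{-j²}`. -/
def J_ELOC : Prop := ∃ C : ℝ, 0 < C ∧ ∀ (Z : Finset ℝ) (α θ : ℝ → ℂ) (δ R T v : ℝ) (N : ℕ), 0 ≤ δ → R ≤ N →
  (∀ t ∈ Z, |t - T| ≤ R) → (∀ s ∈ Z, ∀ t ∈ Z, ‖θ s - θ t‖ ≤ δ * |s - t|) →
  (∀ t ∈ Z, ‖θ t‖ ≤ 2 * δ * |t - T|) →
  ‖∑ t ∈ Z, α t * ((Real.exp (-(2 * (t - T) ^ 2)) : ℝ) : ℂ) * cexp ((((t - T) * v : ℝ) : ℂ) * I) * θ t‖ ^ 2 ≤
    C * δ ^ 2 * ∑ j ∈ Finset.Icc (-(N : ℤ)) N, Real.exp (-((j : ℝ) ^ 2)) *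
      ∫ x : ℝ, (1 + x ^ 2)⁻¹ * ‖∑ t ∈ Z, α t * ((Real.exp (-(2 * (t - (T + j)) ^ 2)) : ℝ) : ℂ) *
        cexp ((((t - (T + j)) * (v + x) : ℝ) : ℂ) * I)‖ ^ 2

/-- MVS. PROOF from MV, DDB, WT: `wt τ ≥ (log 2)/4` for `2^{1/4} ≤ τ ≤ 2^{3/4}`; the windows `X' = (X/2) 2^{i/2 - 1/4}`, `i = 0, ..., 5`, cover `[X/2, 4X]` (apply `J_MV` at `X'`; for
`X < 4` everything is bounded by a constant multiple: `‖DD‖ ≤ Σ|cf| ≤ C e^{v/2}`; note `1 ≤ X`). -/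
def J_MVS : Prop := ∃ C : ℝ, 0 < C ∧ ∀ κ v X : ℝ, 1 ≤ κ → κ ≤ 2 → 1 ≤ X →
  ∫ T in (X / 2)..(4 * X), ‖DD κ v T‖ ^ 2 ≤ C * (X + (Real.exp v + Real.exp (2 * v)) / X)

/-- N2PB. As `J_N2P` (`Pool.Agent.Q204.AL.n2p`), from ABB, CNT, ORT, with `η = δ ≤ δ0` (`C η L ≤ P` holds as `P ≥ L`, `δ0 = 1/C`-like; spacing `1/L` because `1/log X ≤ 1/log(X/16)`), for `T ∈ [X/2, 4X]`. -/
def J_N2PB : Prop := RiemannHypothesis → ∀ a : ℝ, ∃ δ0 X0 : ℝ, 0 < δ0 ∧ ∀ X δ : ℝ, X0 ≤ X → 0 < δ → δ ≤ δ0 →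
  HYPB a δ X → ∀ Z : Finset ℝ, (∀ t ∈ Z, t ∈ Zo ∧ X / 12 ≤ t ∧ t ≤ 20 * X) → ∀ T : ℝ, X / 2 ≤ T → T ≤ 4 * X →
    N2 Z T ≤ 4 / Real.log X * (∫ v in (-Real.log X)..(Real.log X + 6 + 2 * |a|), ‖ZZ Z 1 v T‖ ^ 2) + 1

/-- N2B. As `J_N2` (`Pool.Agent.Q40.AL.n2`), from N2PB, MVS, DDC. -/
def J_N2B : Prop := RiemannHypothesis → ∀ a C0 : ℝ, 0 < C0 → ∃ δ0 C X0 : ℝ, 0 < δ0 ∧ 0 < C ∧ ∀ X δ : ℝ, X0 ≤ X →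
  0 < δ → δ ≤ δ0 → HYPB a δ X → ∀ Z : Finset ℝ, EFB C0 X Z → ∫ T in (X / 2)..(4 * X), N2 Z T ≤ C * X

/-- EPT. PROOF from ABB, CNT, ELOC: `L = log X`, `P = 2(log T + a)`, `v1 = log(cX) - P`, `Z'` = the `t ∈ Z` with `|t - T| ≤ L²`. If `Z'` is empty all is tiny; otherwise `t0 ∈ Z'` nearest to `T`,
`θ t = e^{iP(t-t0)} - 1`: `‖θ s - θ t‖ ≤ δ|s-t|` (unimodular factor), `‖θ t‖ ≤ δ|t-t0| ≤ 2δ|t-T|`. As in `J_LAT` (`Pool.Agent.Q53.AL.lat`): `e^{i(t-T)(v1+P)} = e^{iP(t0-T)} e^{i(t-T)v1}(1 + θ t)`, so the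
difference of the norms for `Z'` is at most `‖Σ_{Z'} aa t e^{-2(t-T)²} e^{i(t-T)v1} θ t‖`: ELOC with `R = L²`, `N = ⌈L²⌉`. In the integrals `v1 + x = (log c - log X) + (x - 2 log(T/X) - 2a)`, a shift of `x` by at most
`2 log 2 + 2|a|`: `(1+(x-s)²)⁻¹ ≤ C_a (1+x²)⁻¹`. Replacing `Z'` by `Z` in these integrals: for `|j| ≤ L²/2` the `t ∈ Z∖Z'` have `|t - T - j| ≥ L²/2`, contribution `≤ |Z| e^{CL²} e^{-L⁴/2}`; for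
`|j| > L²/2` the factor `e^{-j²}` kills everything (`|aa t| ≤ e^{CL²}`, ABB; `|Z| ≤ 20XL + 1`, CNT with spacing `1/L`). Same for `Z∖Z'` on the left. (`c` enters only through `log(cX)`.) -/
def J_EPT : Prop := RiemannHypothesis → ∀ a : ℝ, ∃ C X0 : ℝ, 0 < C ∧ ∀ X δ c : ℝ, X0 ≤ X → 0 < δ → δ ≤ 1 → 0 < c →
  c ≤ 1 → HYPB a δ X → ∀ Z : Finset ℝ, (∀ t ∈ Z, t ∈ Zo ∧ X / 12 ≤ t ∧ t ≤ 20 * X) → ∀ T : ℝ, X ≤ T → T ≤ 2 * X →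
    |‖ZZ Z 2 (Real.log (c * X)) T‖ - ‖ZZ Z 2 (Real.log (c * X) - 2 * (Real.log T + a)) T‖| ^ 2 ≤
      C * δ ^ 2 * ∑ j ∈ Finset.Icc (-(⌈Real.log X ^ 2⌉₊ : ℤ)) ⌈Real.log X ^ 2⌉₊,
        Real.exp (-((j : ℝ) ^ 2)) * QQ Z (Real.log c - Real.log X) (T + j) + 1 / X

/-- QQB. PROOF from N2B, FE, CNT, MVS, DDC: `w = log c - log X`, `L = log X`. Part `|x| ≥ L/2` of `QQ`: `‖ZZ Z 2 v T‖² ≤ N2 Z T · Σ e^{-2(t-T)²} ≤ C L N2 Z T` (Cauchy-Schwarz, CNT with spacing `1/L`),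
`∫_{|x|≥L/2} dx/(1+x²) ≤ 4/L`: at most `C N2 Z T`. Part `|x| ≤ L/2`: FE: `‖ZZ Z 2 (w+x) T‖ ≤ ‖ZZ Z 2 (-w-x-log(T/2π)) T‖ + (C/X) √(N2) √(CL)`, and
`-w - x - log(T/2π) = (log 2π - log c) + x'`, `x' = -x - log(T/X)`, `|x + x'| ≤ 2`: so this part is `≤ C ∫_{|x'| ≤ L/2+2} (1+x'²)⁻¹ ‖ZZ Z 2 (w'+x') T‖² dx' + C N2 L/X²`, `w' = log 2π - log c`; by EFB
`‖ZZ‖² ≤ 2‖DD 2 (w'+x') T‖² + 2C0²(1+e^{-w'-x'})²/X² ` (`≤ 2‖DD‖² + C_c`). Integrate over `T ∈ [X/2, 4X]` (Fubini; `ZZ`, `DD` are continuous): MVS gives `C_c X` as `e^{2(w'+x')} ≤ C_c X`. -/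
def J_QQB : Prop := RiemannHypothesis → ∀ a C0 : ℝ, 0 < C0 → ∃ δ0 : ℝ, 0 < δ0 ∧ ∀ c : ℝ, 0 < c → c ≤ 1 →
  ∃ C X0 : ℝ, 0 < C ∧ ∀ X δ : ℝ, X0 ≤ X → 0 < δ → δ ≤ δ0 → HYPB a δ X → ∀ Z : Finset ℝ, EFB C0 X Z →
    ∫ T in (X / 2)..(4 * X), QQ Z (Real.log c - Real.log X) T ≤ C * X

/-- QQC. `QQ` is continuous in `T` (and the integrals converge). PROOF: `ZZ` is a finite sum, bounded by `Σ ‖aa t‖`, continuous: dominated convergence. -/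
def J_QQC : Prop := ∀ (Z : Finset ℝ) (w : ℝ), Continuous (QQ Z w) ∧
  (∀ T : ℝ, Integrable (fun x : ℝ => (1 + x ^ 2)⁻¹ * ‖ZZ Z 2 (w + x) T‖ ^ 2)) ∧ ∀ T : ℝ, 0 ≤ QQ Z w T

/-- CHAINB. As `J_CHAINW` (`Pool.Agent.Q230.AL.CHAINW`), from EFB, EPT, QQB, QQC, N2B, FE, CNT, MV, DDB, DDC, WT: `f(T) = ‖DD 2 (log cX) T‖`, `g(T) = ‖DD 2 (log(K/c) + log(T/X)) T‖`, `K = 2πe^{2a}`. Chain for `T ∈ [X, 2X]`: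
`DD 2 (log cX) → ZZ 2 (log cX)` (EFB, error `C0(1 + 1/(cX))/X`) `→ ZZ 2 v1`, `v1 = log(cX) - 2(log T + a)` (EPT) `→ ZZ 2 (-v1 - log(T/2π)) = ZZ 2 (log(K/c) + log(T/X))` (FE, error `≤ (C/X) √N2 √(C L)`) `→ DD 2 (...)` (EFB).
`(1/X) ∫_X^{2X} wt |f-g|² ≤ C δ² Σ_j e^{-j²} (1/X) ∫_X^{2X} QQ(T+j) dT + o(1) ≤ C δ² (1/X) ∫_{X/2}^{4X} QQ + o(1) ≤ C_c δ² + o(1)`. The rest as before (`∫ wt f²`, `∫ wt g²` are `O(X)`, `f² - g² = (f-g)(f+g)`). -/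
def J_CHAINB : Prop := RiemannHypothesis → ∀ a : ℝ, ∃ C δ0 : ℝ, 0 < C ∧ 0 < δ0 ∧ ∀ c : ℝ, 0 < c → c ≤ 1 →
  ∃ C1 : ℝ, 0 < C1 ∧ ∀ δ : ℝ, 0 < δ → δ ≤ δ0 → ∃ X0 : ℝ, ∀ X : ℝ, X0 ≤ X → HYPB a δ X →
    |W0 * AA 2 (Real.log (c * X)) - 1 / X * ∫ T in X..(2 * X), wt (T / X) *
      ‖DD 2 (Real.log (2 * Real.pi * Real.exp (2 * a) / c) + Real.log (T / X)) T‖ ^ 2| ≤ C * c ^ 2 + C1 * δ

/-- LIMB. As `J_LIMW` (`Pool.Agent.Q190.AL.LW`), from CHAINB, DUAL, AAL (for fixed `c` let `δ → 0`). -/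
def J_LIMB : Prop := RiemannHypothesis → ∀ a : ℝ, (∀ δ : ℝ, 0 < δ → ∃ᶠ X in (atTop : Filter ℝ), HYPB a δ X) →
  ∃ S C : ℝ, 0 < C ∧ ∀ c : ℝ, 0 < c → c ≤ 1 → |S - BB (2 * Real.pi * Real.exp (2 * a) / c)| ≤ C * c ^ 2

/-- the spacings following the ordinates in `[X/16, 24X]` are within `ε / log` of half-integers -/
def SPB (a ε X : ℝ) : Prop := ∀ n : ℕ, 1 ≤ n → X / 16 ≤ SG.ord n → SG.ord n ≤ 24 * X → ∃ k : ℕ, 1 ≤ k ∧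
  |(SG.ord (n + 1) - SG.ord n) * (Real.log (SG.ord n) + a) / (2 * Real.pi) - k / 2| ≤ ε / Real.log (SG.ord n)

/-- AH1B. As `J_AH1W`, from ENUM. -/
def J_AH1B : Prop := RiemannHypothesis → ∀ a : ℝ, ∃ X0 : ℝ, ∀ X : ℝ, X0 ≤ X → SPB a (1 / 8) X →
  (∀ t ∈ Zo, X / 16 ≤ t → t ≤ 24 * X → deriv riemannZeta (1 / 2 + (t : ℂ) * I) ≠ 0) ∧
  (∀ t ∈ Zo, ∀ t' ∈ Zo, X / 16 ≤ t → t < t' → t' ≤ 24 * X → 1 / Real.log (X / 16) ≤ t' - t)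

/-- AH2B. As `J_AH2W` (see the docstring of `J_AH2`; `m - n ≤ log(X/16) (t'-t)`, error `≤ (8π ε + 4L²/X·…)(t' - t)`), from ENUM, AH1B; `ε = min (1/8) (δ/(16π))`; `T ∈ [X/4, 8X]`. -/
def J_AH2B : Prop := RiemannHypothesis → ∀ a δ : ℝ, 0 < δ → ∃ ε X0 : ℝ, 0 < ε ∧ ∀ X : ℝ, X0 ≤ X → SPB a ε X → HYPB a δ X

/-- GAPB. As `J_GAPW`, from GB. -/
def J_GAPB : Prop := ∀ ε : ℝ, 0 < ε → ∃ X0 : ℝ, ∀ X : ℝ, X0 ≤ X → (∀ n : ℕ, 1 ≤ n → X / 16 ≤ SG.ord n → SG.ord n ≤ 24 * X →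
  ∃ k : ℕ, 1 ≤ k ∧
    |(SG.ord (n + 1) * Real.log (SG.ord (n + 1)) - SG.ord n * Real.log (SG.ord n)) / (2 * Real.pi) - k / 2| ≤
      ε / Real.log (SG.ord n)) → SPB 1 (2 * ε) X

end

end Pool.Agent.Q72.AL
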