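import Pool.Agent.Q72.AL.Stm

set_option autoImplicit false

open Complex MeasureTheory Filter Topology Set

namespace Pool.Agent.Q72.AL.Ort

noncomputable section

/-- `∫_w^{w+P} e^{iξv} dv` -/
lemma int_exp (ξ w P : ℝ) (hξ : ξ ≠ 0) :
    ∫ v in w..(w + P), cexp (((ξ * v : ℝ) : ℂ) * I) =
      cexp (((ξ * w : ℝ) : ℂ) * I) * ((cexp (((P * ξ : ℝ) : ℂ) * I) - 1) / (I * ξ)) := by
  have hξc : (I * (ξ : ℂ)) ≠ 0 := mul_ne_zero I_ne_zero (by exact_mod_cast hξ)
  have e : ∀ v : ℝ, cexp (((ξ * v : ℝ) : ℂ) * I) = cexp ((I * ξ) * v) := by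
    intro v; congr 1; push_cast; ring
  simp_rw [e]
  rw [integral_exp_mul_complex hξc, ← mul_div_assoc]
  congr 1
  rw [mul_sub, mul_one, ← Complex.exp_add]
  congr 1
  · congr 1; push_cast; ring

/-- the inner average -/
def av (ξ : ℝ) : ℂ := ∫ s in (0 : ℝ)..1, cexp (((ξ * s : ℝ) : ℂ) * I)

lemma av_le (ξ : ℝ) (hξ : ξ ≠ 0) : ‖av ξ‖ ^ 2 ≤ min 1 (4 / ξ ^ 2) := by
  have h1 : ‖av ξ‖ ≤ 1 := by
    have := intervalIntegral.norm_integral_le_of_norm_le_const (a := (0:ℝ)) (b := 1) (C := 1)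
      (f := fun s : ℝ => cexp (((ξ * s : ℝ) : ℂ) * I)) (fun s _ => by
        rw [Complex.norm_exp_ofReal_mul_I])
    simpa [av] using this
  rw [le_min_iff]
  constructor
  · have h0 := norm_nonneg (av ξ)
    nlinarith
  · have h2 := int_exp ξ 0 1 hξ
    rw [zero_add] at h2
    have h3 : ‖av ξ‖ ≤ 2 / |ξ| := by
      unfold av
      rw [h2, norm_mul, Complex.norm_exp_ofReal_mul_I, one_mul, norm_div, norm_mul, norm_I, one_mul,
        Complex.norm_real, Real.norm_eq_abs]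
      have h4 : ‖cexp (((1 * ξ : ℝ) : ℂ) * I) - 1‖ ≤ 2 := by
        refine (norm_sub_le _ _).trans ?_
        rw [Complex.norm_exp_ofReal_mul_I, norm_one]; norm_num
      simpa using div_le_div_of_nonneg_right h4 (abs_nonneg ξ)
    calc ‖av ξ‖ ^ 2 ≤ (2 / |ξ|) ^ 2 := by gcongr
      _ = 4 / ξ ^ 2 := by rw [div_pow, sq_abs]; norm_num

/-- the triple average of one exponential -/
def Ph (P ξ w : ℝ) : ℂ := ∫ v in w..(w + P), cexp (((ξ * v : ℝ) : ℂ) * I)

lemma Ph_eq (P ξ w : ℝ) : Ph P ξ w = cexp (((ξ * w : ℝ) : ℂ) * I) * Ph P ξ 0 := by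
  by_cases hξ : ξ = 0
  · subst hξ; simp [Ph]
  · unfold Ph; rw [int_exp ξ w P hξ]
    have := int_exp ξ 0 P hξ
    rw [this]; simp

lemma Ph_cont (P ξ : ℝ) : Continuous (Ph P ξ) := by
  have : Ph P ξ = fun w => cexp (((ξ * w : ℝ) : ℂ) * I) * Ph P ξ 0 := by
    funext w; exact Ph_eq P ξ w
  rw [this]; fun_prop

lemma Ph_norm (P ξ η : ℝ) (hξ : ξ ≠ 0) (h : ‖cexp (((P * ξ : ℝ) : ℂ) * I) - 1‖ ≤ η * |ξ|) :
    ‖Ph P ξ 0‖ ≤ η := by
  unfold Ph
  rw [int_exp ξ 0 P hξ, norm_mul, Complex.norm_exp_ofReal_mul_I, one_mul, norm_div, norm_mul, norm_I,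
    one_mul, Complex.norm_real, Real.norm_eq_abs, div_le_iff₀ (abs_pos.2 hξ)]
  exact h

/-- double average over the shifts -/
lemma dbl (P ξ v0 : ℝ) : ∫ s in (0 : ℝ)..1, ∫ r in (0 : ℝ)..1, Ph P ξ (v0 + s + r) =
    cexp (((ξ * v0 : ℝ) : ℂ) * I) * Ph P ξ 0 * av ξ ^ 2 := by
  have e : ∀ s r : ℝ, Ph P ξ (v0 + s + r) =
      (cexp (((ξ * v0 : ℝ) : ℂ) * I) * Ph P ξ 0 * cexp (((ξ * s : ℝ) : ℂ) * I)) *
        cexp (((ξ * r : ℝ) : ℂ) * I) := by
    intro s r
    rw [Ph_eq]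
    have : cexp (((ξ * (v0 + s + r) : ℝ) : ℂ) * I) = cexp (((ξ * v0 : ℝ) : ℂ) * I) *
        cexp (((ξ * s : ℝ) : ℂ) * I) * cexp (((ξ * r : ℝ) : ℂ) * I) := by
      rw [← Complex.exp_add, ← Complex.exp_add]; congr 1; push_cast; ring
    rw [this]; ring
  simp_rw [e, intervalIntegral.integral_const_mul]
  rw [show (∫ r in (0 : ℝ)..1, cexp (((ξ * r : ℝ) : ℂ) * I)) = av ξ from rfl]
  rw [intervalIntegral.integral_mul_const, intervalIntegral.integral_const_mul]
  rw [show (∫ r in (0 : ℝ)..1, cexp (((ξ * r : ℝ) : ℂ) * I)) = av ξ from rfl]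
  ring

/-- a sum over nonzero integers -/
lemma int_sum (L : ℝ) (hL : 1 ≤ L) (K : Finset ℤ) (hK : ∀ k ∈ K, k ≠ 0) :
    ∑ k ∈ K, min 1 (16 * L ^ 2 / (k : ℝ) ^ 2) ≤ 20 * L := by
  classical
  obtain ⟨M, hM⟩ : ∃ M : ℕ, ∀ k ∈ K, k.natAbs ≤ M := ⟨K.sup Int.natAbs, fun k hk => Finset.le_sup hk⟩
  -- bound for natural numbers
  have hnat : ∑ n ∈ Finset.Icc 1 M, min 1 (16 * L ^ 2 / (n : ℝ) ^ 2) ≤ 10 * L := by
    set N : ℕ := ⌈4 * L⌉₊ with hN
    have hN1 : 4 * L ≤ N := Nat.le_ceil _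
    have hN2 : (N : ℝ) < 4 * L + 1 := Nat.ceil_lt_add_one (by linarith)
    have hN0 : N ≠ 0 := by
      intro h; rw [h] at hN1; norm_num at hN1; linarith
    have h1 : ∑ n ∈ Finset.Icc 1 M, min 1 (16 * L ^ 2 / (n : ℝ) ^ 2) ≤
        ∑ n ∈ Finset.Icc 1 N, (1 : ℝ) + ∑ n ∈ Finset.Ioc N (max N M), 16 * L ^ 2 * ((n : ℝ) ^ 2)⁻¹ := by
      have hsub : Finset.Icc 1 M ⊆ Finset.Icc 1 N ∪ Finset.Ioc N (max N M) := by
        intro n hn
        rw [Finset.mem_Icc] at hn
        rw [Finset.mem_union, Finset.mem_Icc, Finset.mem_Ioc]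
        by_cases h : n ≤ N
        · left; exact ⟨hn.1, h⟩
        · right; exact ⟨by omega, le_trans hn.2 (le_max_right _ _)⟩
      have hnn : ∀ n : ℕ, 0 ≤ min 1 (16 * L ^ 2 / (n : ℝ) ^ 2) := fun n => le_min zero_le_one (by positivity)
      calc _ ≤ ∑ n ∈ Finset.Icc 1 N ∪ Finset.Ioc N (max N M), min 1 (16 * L ^ 2 / (n : ℝ) ^ 2) :=
            Finset.sum_le_sum_of_subset_of_nonneg hsub fun n _ _ => hnn n
        _ = ∑ n ∈ Finset.Icc 1 N, min 1 (16 * L ^ 2 / (n : ℝ) ^ 2) +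
            ∑ n ∈ Finset.Ioc N (max N M), min 1 (16 * L ^ 2 / (n : ℝ) ^ 2) := by
            rw [Finset.sum_union]
            rw [Finset.disjoint_left]
            intro n hn hn2
            rw [Finset.mem_Icc] at hn
            rw [Finset.mem_Ioc] at hn2
            omega
        _ ≤ _ := by
            gcongr with n hn n hn
            · exact min_le_left _ _
            · rw [← div_eq_mul_inv]; exact min_le_right _ _
    have h2 : ∑ n ∈ Finset.Ioc N (max N M), 16 * L ^ 2 * ((n : ℝ) ^ 2)⁻¹ ≤ 16 * L ^ 2 * (1 / (4 * L)) := by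
      rw [← Finset.mul_sum]
      gcongr
      have h3 := sum_Ioc_inv_sq_le_sub (α := ℝ) hN0 (le_max_left N M)
      refine h3.trans ?_
      have h4 : (0 : ℝ) ≤ ((max N M : ℕ) : ℝ)⁻¹ := by positivity
      have h5 : ((N : ℝ))⁻¹ ≤ 1 / (4 * L) := by
        rw [inv_eq_one_div]
        apply one_div_le_one_div_of_le (by linarith) hN1
      linarith
    have h6 : 16 * L ^ 2 * (1 / (4 * L)) = 4 * L := by field_simp; ring
    rw [h6] at h2
    have h7 : ∑ n ∈ Finset.Icc 1 N, (1 : ℝ) = N := by simp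
    rw [h7] at h1
    linarith
  have hmap : ∑ k ∈ K, min 1 (16 * L ^ 2 / (k : ℝ) ^ 2) ≤
      ∑ n ∈ Finset.Icc 1 M, ∑ k ∈ ({(n : ℤ), -(n : ℤ)} : Finset ℤ), min 1 (16 * L ^ 2 / (k : ℝ) ^ 2) := by
    have hnn : ∀ k : ℤ, 0 ≤ min 1 (16 * L ^ 2 / (k : ℝ) ^ 2) := fun k => le_min zero_le_one (by positivity)
    have hsub : K ⊆ (Finset.Icc 1 M).biUnion (fun n : ℕ => ({(n : ℤ), -(n : ℤ)} : Finset ℤ)) := by
      intro k hk
      rw [Finset.mem_biUnion]
      refine ⟨k.natAbs, ?_, ?_⟩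
      · rw [Finset.mem_Icc]
        exact ⟨Int.natAbs_pos.2 (hK k hk), hM k hk⟩
      · rw [Finset.mem_insert, Finset.mem_singleton]
        omega
    refine (Finset.sum_le_sum_of_subset_of_nonneg hsub fun k _ _ => hnn k).trans ?_
    rw [Finset.sum_biUnion]
    intro n hn m hm hnm
    rw [Function.onFun, Finset.disjoint_left]
    intro k hk hk2
    simp only [Finset.coe_Icc, Set.mem_Icc] at hn hm
    rw [Finset.mem_insert, Finset.mem_singleton] at hk hk2
    omega
  refine hmap.trans ?_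
  have hpair : ∀ n ∈ Finset.Icc 1 M, ∑ k ∈ ({(n : ℤ), -(n : ℤ)} : Finset ℤ), min 1 (16 * L ^ 2 / (k : ℝ) ^ 2) ≤
      2 * min 1 (16 * L ^ 2 / (n : ℝ) ^ 2) := by
    intro n hn
    rw [Finset.mem_Icc] at hn
    rw [Finset.sum_pair (by omega)]
    push_cast
    rw [neg_sq]; linarith
  refine (Finset.sum_le_sum hpair).trans ?_
  rw [← Finset.mul_sum]
  linarith

/-- spaced sums -/
lemma spaced_sum (Z : Finset ℝ) (L : ℝ) (hL : 1 ≤ L)
    (hs : ∀ t ∈ Z, ∀ t' ∈ Z, t < t' → 1 / L ≤ t' - t) (t : ℝ) (ht : t ∈ Z) :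
    ∑ t' ∈ Z.erase t, min 1 (4 / (t - t') ^ 2) ≤ 20 * L := by
  classical
  have hL0 : 0 < L := by linarith
  set f : ℝ → ℤ := fun t' => ⌊L * (t' - t)⌋ with hf
  have hgap : ∀ x ∈ Z, ∀ y ∈ Z, x < y → L * (x - t) + 1 ≤ L * (y - t) := by
    intro x hx y hy hxy
    have := hs x hx y hy hxy
    rw [div_le_iff₀ hL0] at this
    nlinarith
  have hinj : Set.InjOn f (Z.erase t : Set ℝ) := by
    intro x hx y hy hxy
    have hx' : x ∈ Z := Finset.mem_of_mem_erase hx
    have hy' : y ∈ Z := Finset.mem_of_mem_erase hy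
    simp only [hf] at hxy
    rcases lt_trichotomy x y with h | h | h
    · have h1 := hgap x hx' y hy' h
      have h2 := Int.floor_le (L * (y - t))
      have h3 := Int.lt_floor_add_one (L * (x - t))
      have h5 : ⌊L * (x - t)⌋ + 1 ≤ ⌊L * (y - t)⌋ := by
        rw [Int.le_floor]; push_cast
        have := Int.floor_le (L * (x - t))
        linarith
      omega
    · exact h
    · have h1 := hgap y hy' x hx' h
      have h5 : ⌊L * (y - t)⌋ + 1 ≤ ⌊L * (x - t)⌋ := by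
        rw [Int.le_floor]; push_cast
        have := Int.floor_le (L * (y - t))
        linarith
      omega
  have hne : ∀ x ∈ Z.erase t, f x ≠ 0 ∧ |((f x : ℤ) : ℝ)| ≤ 2 * L * |t - x| := by
    intro x hx
    have hx' : x ∈ Z := Finset.mem_of_mem_erase hx
    have hxt : x ≠ t := Finset.ne_of_mem_erase hx
    have e1 := Int.floor_le (L * (x - t))
    have e2 := Int.lt_floor_add_one (L * (x - t))
    rcases lt_or_gt_of_ne hxt with h | h
    · have h1 := hgap x hx' t ht h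
      rw [sub_self, mul_zero] at h1
      have h2 : ((⌊L * (x - t)⌋ : ℤ) : ℝ) ≤ -1 := by linarith
      refine ⟨?_, ?_⟩
      · intro h0
        simp only [hf] at h0
        rw [h0] at h2; norm_num at h2
      · simp only [hf]
        rw [abs_of_nonpos (by linarith), abs_of_pos (by linarith : 0 < t - x)]
        nlinarith
    · have h1 := hgap t ht x hx' h
      rw [sub_self, mul_zero, zero_add] at h1
      have h2 : (1 : ℤ) ≤ ⌊L * (x - t)⌋ := by rw [Int.le_floor]; push_cast; linarith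
      have h2' : (1 : ℝ) ≤ ((⌊L * (x - t)⌋ : ℤ) : ℝ) := by exact_mod_cast h2
      refine ⟨?_, ?_⟩
      · simp only [hf]; omega
      · simp only [hf]
        rw [abs_of_nonneg (by linarith), abs_of_neg (by linarith : t - x < 0)]
        nlinarith
  calc ∑ t' ∈ Z.erase t, min 1 (4 / (t - t') ^ 2) ≤
        ∑ t' ∈ Z.erase t, min 1 (16 * L ^ 2 / ((f t' : ℤ) : ℝ) ^ 2) := by
        refine Finset.sum_le_sum fun x hx => ?_
        obtain ⟨h1, h2⟩ := hne x hx
        apply min_le_min le_rfl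
        have hxt : x ≠ t := Finset.ne_of_mem_erase hx
        have h3 : 0 < (t - x) ^ 2 := by
          have : t - x ≠ 0 := sub_ne_zero.2 hxt.symm
          positivity
        have h4 : 0 < ((f x : ℤ) : ℝ) ^ 2 := by
          have : ((f x : ℤ) : ℝ) ≠ 0 := by exact_mod_cast h1
          positivity
        rw [div_le_div_iff₀ h3 h4]
        have h5 : ((f x : ℤ) : ℝ) ^ 2 ≤ (2 * L * |t - x|) ^ 2 := by
          rw [← sq_abs ((f x : ℤ) : ℝ)]
          gcongr
        rw [mul_pow, sq_abs] at h5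
        nlinarith
    _ = ∑ k ∈ (Z.erase t).image f, min 1 (16 * L ^ 2 / (k : ℝ) ^ 2) := by
        rw [Finset.sum_image hinj]
    _ ≤ 20 * L := int_sum L hL _ (by
        intro k hk
        rw [Finset.mem_image] at hk
        obtain ⟨x, hx, rfl⟩ := hk
        exact (hne x hx).1)

/-- **Almost orthogonality.** -/
theorem ort : Pool.Agent.Q72.AL.J_ORT := by
  refine ⟨40, by norm_num, ?_⟩
  intro Z b P L η v0 hL hP hη hs hlat hC
  classical
  set F : ℝ → ℂ := fun v => ∑ t ∈ Z, b t * cexp (((t * v : ℝ) : ℂ) * I) with hF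
  have hFc : Continuous F := by rw [hF]; fun_prop
  have hGc : Continuous (fun v => ‖F v‖ ^ 2) := by fun_prop
  -- expansion of the square
  have hsq : ∀ v : ℝ, ((‖F v‖ ^ 2 : ℝ) : ℂ) = ∑ t ∈ Z, ∑ t' ∈ Z,
      b t * (starRingEnd ℂ) (b t') * cexp ((((t - t') * v : ℝ) : ℂ) * I) := by
    intro v
    have h1 : ((‖F v‖ ^ 2 : ℝ) : ℂ) = F v * (starRingEnd ℂ) (F v) := by
      rw [Complex.mul_conj, Complex.normSq_eq_norm_sq]
    rw [h1, hF]
    simp only [map_sum]
    rw [Finset.sum_mul_sum]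
    refine Finset.sum_congr rfl fun t _ => Finset.sum_congr rfl fun t' _ => ?_
    have h2 : (starRingEnd ℂ) (cexp (((t' * v : ℝ) : ℂ) * I)) = cexp (-((t' * v : ℝ) : ℂ) * I) := by
      rw [← Complex.exp_conj]
      congr 1
      simp
    rw [map_mul, h2]
    have h3 : cexp ((((t - t') * v : ℝ) : ℂ) * I) = cexp (((t * v : ℝ) : ℂ) * I) *
        cexp (-((t' * v : ℝ) : ℂ) * I) := by
      rw [← Complex.exp_add]; congr 1; push_cast; ring
    rw [h3]; ring
  -- the integral over a period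
  have hper : ∀ w : ℝ, (((∫ v in w..(w + P), ‖F v‖ ^ 2) : ℝ) : ℂ) = ∑ t ∈ Z, ∑ t' ∈ Z,
      b t * (starRingEnd ℂ) (b t') * Ph P (t - t') w := by
    intro w
    rw [← intervalIntegral.integral_ofReal]
    simp_rw [hsq]
    rw [intervalIntegral.integral_finsetSum]
    · refine Finset.sum_congr rfl fun t _ => ?_
      rw [intervalIntegral.integral_finsetSum]
      · refine Finset.sum_congr rfl fun t' _ => ?_
        rw [intervalIntegral.integral_const_mul]
        rfl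
      · intro t' _
        exact Continuous.intervalIntegrable (by fun_prop) _ _
    · intro t _
      exact Continuous.intervalIntegrable (by fun_prop) _ _
  set G : ℝ → ℝ := fun w => ∫ v in w..(w + P), ‖F v‖ ^ 2 with hG
  have hPhc : ∀ ξ : ℝ, Continuous (Ph P ξ) := Ph_cont P
  have hGcont : Continuous G := by
    have h1 : Continuous (fun w : ℝ => ((G w : ℝ) : ℂ)) := by
      have : (fun w : ℝ => ((G w : ℝ) : ℂ)) = fun w => ∑ t ∈ Z, ∑ t' ∈ Z,
          b t * (starRingEnd ℂ) (b t') * Ph P (t - t') w := by funext w; exact hper w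
      rw [this]
      refine continuous_finsetSum _ fun t _ => continuous_finsetSum _ fun t' _ => ?_
      exact continuous_const.mul (hPhc _)
    have h2 : Continuous (fun w : ℝ => (((G w : ℝ) : ℂ)).re) := Complex.continuous_re.comp h1
    simpa using h2
  -- the double average
  have hdbl : ((∫ s in (0 : ℝ)..1, ∫ r in (0 : ℝ)..1, G (v0 + s + r) : ℝ) : ℂ) = ∑ t ∈ Z, ∑ t' ∈ Z,
      b t * (starRingEnd ℂ) (b t') * (cexp ((((t - t') * v0 : ℝ) : ℂ) * I) * Ph P (t - t') 0 * av (t - t') ^ 2) := by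
    rw [← intervalIntegral.integral_ofReal]
    simp_rw [← intervalIntegral.integral_ofReal, hG, hper]
    have hin : ∀ s : ℝ, ∫ r in (0 : ℝ)..1, (∑ t ∈ Z, ∑ t' ∈ Z,
        b t * (starRingEnd ℂ) (b t') * Ph P (t - t') (v0 + s + r)) = ∑ t ∈ Z, ∑ t' ∈ Z,
        b t * (starRingEnd ℂ) (b t') * ∫ r in (0 : ℝ)..1, Ph P (t - t') (v0 + s + r) := by
      intro s
      rw [intervalIntegral.integral_finsetSum]
      · refine Finset.sum_congr rfl fun t _ => ?_
        rw [intervalIntegral.integral_finsetSum]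
        · refine Finset.sum_congr rfl fun t' _ => ?_
          rw [intervalIntegral.integral_const_mul]
        · intro t' _
          exact Continuous.intervalIntegrable (continuous_const.mul ((hPhc _).comp (by fun_prop))) _ _
      · intro t _
        exact Continuous.intervalIntegrable (continuous_finsetSum _ fun t' _ =>
          continuous_const.mul ((hPhc _).comp (by fun_prop))) _ _
    simp_rw [hin]
    have hc2 : ∀ ξ : ℝ, Continuous (fun s : ℝ => ∫ r in (0 : ℝ)..1, Ph P ξ (v0 + s + r)) := by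
      intro ξ
      have : (fun s : ℝ => ∫ r in (0 : ℝ)..1, Ph P ξ (v0 + s + r)) = fun s =>
          (∫ r in (0 : ℝ)..1, cexp (((ξ * r : ℝ) : ℂ) * I)) * (cexp (((ξ * (v0 + s) : ℝ) : ℂ) * I) * Ph P ξ 0) := by
        funext s
        rw [← intervalIntegral.integral_mul_const]
        refine intervalIntegral.integral_congr fun r _ => ?_
        show Ph P ξ (v0 + s + r) = _
        rw [Ph_eq]
        have : cexp (((ξ * (v0 + s + r) : ℝ) : ℂ) * I) = cexp (((ξ * r : ℝ) : ℂ) * I) *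
            cexp (((ξ * (v0 + s) : ℝ) : ℂ) * I) := by
          rw [← Complex.exp_add]; congr 1; push_cast; ring
        rw [this]; ring
      rw [this]; fun_prop
    rw [intervalIntegral.integral_finsetSum]
    · refine Finset.sum_congr rfl fun t _ => ?_
      rw [intervalIntegral.integral_finsetSum]
      · refine Finset.sum_congr rfl fun t' _ => ?_
        rw [intervalIntegral.integral_const_mul, dbl]
      · intro t' _
        exact Continuous.intervalIntegrable (continuous_const.mul (hc2 _)) _ _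
    · intro t _
      exact Continuous.intervalIntegrable (continuous_finsetSum _ fun t' _ =>
        continuous_const.mul (hc2 _)) _ _
  -- upper bound for the double average
  have hup : ∫ s in (0 : ℝ)..1, ∫ r in (0 : ℝ)..1, G (v0 + s + r) ≤ ∫ v in v0..(v0 + P + 2), ‖F v‖ ^ 2 := by
    set J : ℝ := ∫ v in v0..(v0 + P + 2), ‖F v‖ ^ 2 with hJ
    have hle : ∀ s ∈ Set.Icc (0 : ℝ) 1, ∀ r ∈ Set.Icc (0 : ℝ) 1, G (v0 + s + r) ≤ J := by
      intro s hs r hr
      simp only [hG, hJ]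
      apply intervalIntegral.integral_mono_interval
      · linarith [hs.1, hr.1]
      · linarith
      · linarith [hs.2, hr.2]
      · exact Filter.Eventually.of_forall fun v => by positivity
      · exact hGc.intervalIntegrable _ _
    have hin : ∀ s ∈ Set.Icc (0 : ℝ) 1, ∫ r in (0 : ℝ)..1, G (v0 + s + r) ≤ J := by
      intro s hs
      have h1 : ∫ r in (0 : ℝ)..1, G (v0 + s + r) ≤ ∫ r in (0 : ℝ)..1, J := by
        apply intervalIntegral.integral_mono_on zero_le_one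
        · exact (hGcont.comp (by fun_prop)).intervalIntegrable _ _
        · exact intervalIntegrable_const
        · intro r hr; exact hle s hs r hr
      simpa using h1
    have h2 : ∫ s in (0 : ℝ)..1, ∫ r in (0 : ℝ)..1, G (v0 + s + r) ≤ ∫ s in (0 : ℝ)..1, J := by
      apply intervalIntegral.integral_mono_on zero_le_one
      · apply Continuous.intervalIntegrable
        exact intervalIntegral.continuous_parametric_intervalIntegral_of_continuous' (by
          exact hGcont.comp (by fun_prop)) _ _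
      · exact intervalIntegrable_const
      · intro s hs; exact hin s hs
    simpa using h2
  -- lower bound
  have hlow : (P - 20 * η * L) * ∑ t ∈ Z, ‖b t‖ ^ 2 ≤ ∫ s in (0 : ℝ)..1, ∫ r in (0 : ℝ)..1, G (v0 + s + r) := by
    set D : ℝ := ∫ s in (0 : ℝ)..1, ∫ r in (0 : ℝ)..1, G (v0 + s + r) with hD
    set K : ℝ → ℝ → ℂ := fun t t' => b t * (starRingEnd ℂ) (b t') *
      (cexp ((((t - t') * v0 : ℝ) : ℂ) * I) * Ph P (t - t') 0 * av (t - t') ^ 2) with hK
    have hdiag : ∀ t : ℝ, K t t = ((P * ‖b t‖ ^ 2 : ℝ) : ℂ) := by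
      intro t
      have h1 : Ph P (t - t) 0 = (P : ℂ) := by simp [Ph]
      have h2 : av (t - t) = 1 := by simp [av]
      simp only [hK]
      rw [h1, h2, Complex.mul_conj, Complex.normSq_eq_norm_sq]
      simp
      ring
    have hoff : ∀ t ∈ Z, ∀ t' ∈ Z.erase t, ‖K t t'‖ ≤
        η * min 1 (4 / (t - t') ^ 2) * ((‖b t‖ ^ 2 + ‖b t'‖ ^ 2) / 2) := by
      intro t ht t' ht'
      have htt : t - t' ≠ 0 := sub_ne_zero.2 (Finset.ne_of_mem_erase ht').symm
      have h1 := Ph_norm P (t - t') η htt (hlat t ht t' (Finset.mem_of_mem_erase ht'))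
      have h2 := av_le (t - t') htt
      simp only [hK]
      rw [norm_mul, norm_mul, norm_mul, norm_mul, Complex.norm_exp_ofReal_mul_I, one_mul, norm_pow,
        RCLike.norm_conj]
      have h3 : ‖b t‖ * ‖b t'‖ ≤ (‖b t‖ ^ 2 + ‖b t'‖ ^ 2) / 2 := by nlinarith [sq_nonneg (‖b t‖ - ‖b t'‖)]
      have h4 : ‖Ph P (t - t') 0‖ * ‖av (t - t')‖ ^ 2 ≤ η * min 1 (4 / (t - t') ^ 2) :=
        mul_le_mul h1 h2 (by positivity) hη
      calc ‖b t‖ * ‖b t'‖ * (‖Ph P (t - t') 0‖ * ‖av (t - t')‖ ^ 2) ≤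
          ((‖b t‖ ^ 2 + ‖b t'‖ ^ 2) / 2) * (η * min 1 (4 / (t - t') ^ 2)) :=
            mul_le_mul h3 h4 (by positivity) (by positivity)
        _ = _ := by ring
    have hsplit : (D : ℂ) = ∑ t ∈ Z, (((P * ‖b t‖ ^ 2 : ℝ) : ℂ) + ∑ t' ∈ Z.erase t, K t t') := by
      rw [hdbl]
      refine Finset.sum_congr rfl fun t ht => ?_
      rw [← Finset.add_sum_erase Z _ ht]
      congr 1
      exact hdiag t
    have hre : D = ∑ t ∈ Z, P * ‖b t‖ ^ 2 + (∑ t ∈ Z, ∑ t' ∈ Z.erase t, K t t').re := by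
      have := congrArg Complex.re hsplit
      rw [Complex.ofReal_re, Finset.sum_add_distrib, Complex.add_re, ← Complex.ofReal_sum,
        Complex.ofReal_re] at this
      exact this
    have hbd : ‖∑ t ∈ Z, ∑ t' ∈ Z.erase t, K t t'‖ ≤ 20 * η * L * ∑ t ∈ Z, ‖b t‖ ^ 2 := by
      have hnn : ∀ x y : ℝ, 0 ≤ min 1 (4 / (x - y) ^ 2) := fun x y => le_min zero_le_one (by positivity)
      calc ‖∑ t ∈ Z, ∑ t' ∈ Z.erase t, K t t'‖ ≤ ∑ t ∈ Z, ∑ t' ∈ Z.erase t, ‖K t t'‖ :=
            (norm_sum_le _ _).trans (Finset.sum_le_sum fun t _ => norm_sum_le _ _)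
        _ ≤ ∑ t ∈ Z, ∑ t' ∈ Z.erase t, η * min 1 (4 / (t - t') ^ 2) * ((‖b t‖ ^ 2 + ‖b t'‖ ^ 2) / 2) :=
            Finset.sum_le_sum fun t ht => Finset.sum_le_sum fun t' ht' => hoff t ht t' ht'
        _ = η / 2 * ∑ t ∈ Z, ∑ t' ∈ Z.erase t, min 1 (4 / (t - t') ^ 2) * ‖b t‖ ^ 2 +
            η / 2 * ∑ t ∈ Z, ∑ t' ∈ Z.erase t, min 1 (4 / (t - t') ^ 2) * ‖b t'‖ ^ 2 := by
            rw [Finset.mul_sum, Finset.mul_sum, ← Finset.sum_add_distrib]
            refine Finset.sum_congr rfl fun t _ => ?_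
            rw [Finset.mul_sum, Finset.mul_sum, ← Finset.sum_add_distrib]
            refine Finset.sum_congr rfl fun t' _ => ?_
            ring
        _ ≤ η / 2 * ∑ t ∈ Z, 20 * L * ‖b t‖ ^ 2 + η / 2 * ∑ t ∈ Z, 20 * L * ‖b t‖ ^ 2 := by
            have e1 : ∑ t ∈ Z, ∑ t' ∈ Z.erase t, min 1 (4 / (t - t') ^ 2) * ‖b t‖ ^ 2 ≤
                ∑ t ∈ Z, 20 * L * ‖b t‖ ^ 2 := by
              refine Finset.sum_le_sum fun t ht => ?_
              rw [← Finset.sum_mul]
              exact mul_le_mul_of_nonneg_right (spaced_sum Z L hL hs t ht) (by positivity)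
            have e2 : ∑ t ∈ Z, ∑ t' ∈ Z.erase t, min 1 (4 / (t - t') ^ 2) * ‖b t'‖ ^ 2 ≤
                ∑ t ∈ Z, 20 * L * ‖b t‖ ^ 2 := by
              have e3 : ∑ t ∈ Z, ∑ t' ∈ Z.erase t, min 1 (4 / (t - t') ^ 2) * ‖b t'‖ ^ 2 =
                  ∑ t' ∈ Z, ∑ t ∈ Z.erase t', min 1 (4 / (t' - t) ^ 2) * ‖b t'‖ ^ 2 := by
                rw [Finset.sum_comm' (t' := Z) (s' := fun t' => Z.erase t')]
                · refine Finset.sum_congr rfl fun t' _ => Finset.sum_congr rfl fun t _ => ?_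
                  rw [show (t - t') ^ 2 = (t' - t) ^ 2 by ring]
                · intro x y
                  simp only [Finset.mem_erase]
                  tauto
              rw [e3]
              refine Finset.sum_le_sum fun t ht => ?_
              rw [← Finset.sum_mul]
              exact mul_le_mul_of_nonneg_right (spaced_sum Z L hL hs t ht) (by positivity)
            gcongr
        _ = 20 * η * L * ∑ t ∈ Z, ‖b t‖ ^ 2 := by rw [← Finset.mul_sum]; ring
    have h5 := (abs_le.1 ((Complex.abs_re_le_norm (∑ t ∈ Z, ∑ t' ∈ Z.erase t, K t t')).trans hbd)).1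
    rw [hre, ← Finset.mul_sum]
    linarith
  have hfin := hlow.trans hup
  have hS : 0 ≤ ∑ t ∈ Z, ‖b t‖ ^ 2 := Finset.sum_nonneg fun _ _ => by positivity
  have : P / 2 * ∑ t ∈ Z, ‖b t‖ ^ 2 ≤ (P - 20 * η * L) * ∑ t ∈ Z, ‖b t‖ ^ 2 :=
    mul_le_mul_of_nonneg_right (by linarith) hS
  exact this.trans hfin

end

end Pool.Agent.Q72.AL.Ort
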