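import Pool.Agent.Q149.AL.RIGHT
import Pool.Agent.Q166.AL.LEFT
import Pool.Agent.Q166.AL.RECT
import Pool.Agent.Q166.AL.EF
import Pool.Agent.Q178.AL.Conj
import Pool.Agent.Q68.AL.FE
import Pool.Agent.Q241.AL.AB
import Pool.Agent.Q58.AL.CNT
import Pool.Agent.Q54.AL.WT
import Pool.Agent.Q190.AL.DL
import Pool.Agent.Q58.AL.DDC
import Pool.Agent.Q247.AL.MV
import Pool.Agent.Q135.AL.DUAL
import Pool.Agent.Q123.AL.AAL
import Pool.Agent.Q176.AL.BB
import Pool.Agent.Q252.AL.SQF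
import Pool.Agent.Q204.AL.Wm
import Pool.Agent.Q76.AL.GI
import Pool.Agent.Q285.AL.MT
import Pool.Agent.Q53.AL.Mel
import Pool.Agent.Q238.AL.ENUM
import Pool.Agent.Q252.AL.GB

/-! # Project AL (MP_f0209c_nt, helper72): the common parts -/

set_option autoImplicit false

namespace Pool.Agent.Q72.AL.Parts

open Pool.Agent.Q72.AL

theorem p_right : J_RIGHT := Pool.Agent.Q149.AL.right
theorem p_left : J_LEFT := Pool.Agent.Q166.AL.left
theorem p_rect : J_RECT := Pool.Agent.Q166.AL.rect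
theorem p_conj : J_CONJ := Pool.Agent.Q178.AL.conj
theorem p_fe : J_FE := Pool.Agent.Q68.AL.fe p_conj
theorem p_ab : J_AB := Pool.Agent.Q241.AL.ab
theorem p_cnt : J_CNT := Pool.Agent.Q58.AL.cnt
theorem p_wt : J_WT := Pool.Agent.Q54.AL.wt_
theorem p_ddb : J_DDB := Pool.Agent.Q190.AL.ddb
theorem p_ddc : J_DDC := Pool.Agent.Q58.AL.ddc
theorem p_mv : J_MV := Pool.Agent.Q247.AL.mv p_wt p_ddb p_ddc
theorem p_dual : J_DUAL := Pool.Agent.Q135.AL.dual p_wt p_ddc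
theorem p_aal : J_AAL := Pool.Agent.Q123.AL.aal p_ddb
theorem p_bb : J_BB := Pool.Agent.Q176.AL.bb p_wt p_ddb p_ddc
theorem p_sqf : J_SQF := Pool.Agent.Q252.AL.sqf
theorem p_wm : J_WM := Pool.Agent.Q204.AL.wm
theorem p_gi : J_GI := Pool.Agent.Q76.AL.gi
theorem p_mt : J_MT := Pool.Agent.Q285.AL.mt p_sqf p_wm p_gi p_bb p_ddb p_ddc p_wt
theorem p_mel : J_MEL := Pool.Agent.Q53.AL.mel p_mt p_bb
theorem p_enum : J_ENUM := Pool.Agent.Q238.AL.enum
theorem p_gb : J_GB := Pool.Agent.Q252.AL.gb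

end Pool.Agent.Q72.AL.Parts
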