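import Pool.Agent.Q72.AL.Rel
import Pool.Agent.Q72.AL.Parts
import Pool.Agent.Q72.AL.Ort
import Pool.Agent.Q190.AL.EB.EFB
import Pool.Agent.Q231.AL.ABB
import Pool.Agent.Q139.AL.SOB
import Pool.Agent.Q65.AL.ELOC
import Pool.Agent.Q94.AL.MVS
import Pool.Agent.Q210.AL.EPT
import Pool.Agent.Q142.AL.QQC
import Pool.Agent.Q90.AL.LIMB
import Pool.Agent.Q181.AL.N2PB
import Pool.Agent.Q174.AL.N2B
import Pool.Agent.Q158.AL.QQB
import Pool.Agent.Q113.AL.CHAINB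

/-! # Project AL (MP_f0209c_nt, helper72): the second part assembled -/

set_option autoImplicit false

namespace Pool.Agent.Q72.AL.FinB

open Pool.Agent.Q72.AL Pool.Agent.Q72.AL.Parts

theorem p_ort : J_ORT := Pool.Agent.Q72.AL.Ort.ort
theorem p_efb : J_EFB := Pool.Agent.Q190.AL.EB.efb p_right p_left p_rect
theorem p_abb : J_ABB := Pool.Agent.Q231.AL.ABB.abb p_ab
theorem p_sob : J_SOB := Pool.Agent.Q139.AL.sob
theorem p_eloc : J_ELOC := Pool.Agent.Q65.AL.eloc p_sob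
theorem p_mvs : J_MVS := Pool.Agent.Q94.AL.mvs p_mv p_ddb p_wt p_ddc
theorem p_ept : J_EPT := Pool.Agent.Q210.AL.ept p_abb p_cnt p_eloc
theorem p_qqc : J_QQC := Pool.Agent.Q142.AL.qqc
theorem p_n2pb : J_N2PB := Pool.Agent.Q181.AL.n2pb p_abb p_cnt p_ort
theorem p_n2b : J_N2B := Pool.Agent.Q174.AL.n2b p_n2pb p_mvs p_ddc
theorem p_qqb : J_QQB := Pool.Agent.Q158.AL.qqb p_n2b p_fe p_cnt p_mvs p_ddc p_qqc
theorem p_chainb : J_CHAINB :=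
  Pool.Agent.Q113.AL.chainb p_efb p_ept p_qqb p_qqc p_n2b p_fe p_cnt p_mv p_ddb p_ddc p_wt
theorem p_limb : J_LIMB := Pool.Agent.Q90.AL.limb p_chainb p_dual p_aal

theorem finalA (RH : RiemannHypothesis) (A : ℝ) :
    ∃ ε X0 : ℝ, 0 < ε ∧ ∀ X : ℝ, X0 ≤ X → ∀ a : ℝ, |a| ≤ A →
      ∃ n : ℕ, 1 ≤ n ∧ X ≤ SG.ord n ∧ SG.ord n ≤ 384 * X ∧
      ∀ k : ℕ, 1 ≤ k → ε * k / Real.log (SG.ord n) <
        |(SG.ord (n + 1) - SG.ord n) * (Real.log (SG.ord n) + a) / (2 * Real.pi) - k / 2| :=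
  mainAR p_mel p_limb p_enum RH A

theorem finalD (RH : RiemannHypothesis) :
    ∃ ε X0 : ℝ, 0 < ε ∧ ∀ X : ℝ, X0 ≤ X → ∃ n : ℕ, 1 ≤ n ∧ X ≤ SG.ord n ∧ SG.ord n ≤ 384 * X ∧
      ∀ k : ℕ, 1 ≤ k → ε * k / Real.log (SG.ord n) <
        |(SG.ord (n + 1) * Real.log (SG.ord (n + 1)) - SG.ord n * Real.log (SG.ord n)) /
          (2 * Real.pi) - k / 2| :=
  mainDR p_mel p_limb p_enum p_gb RH

end Pool.Agent.Q72.AL.FinB
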