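import Pool.Agent.Q72.AL.Stm

/-! # Project AL (MP_f0209c_nt, helper72): more pieces -/

set_option autoImplicit false

open Complex MeasureTheory Filter Topology Set
open H345 (Zo aa XX)

namespace Pool.Agent.Q72.AL

noncomputable section

/-- N2P. The pointwise bound in the proof of N2. PROOF from AB, CNT, ORT (as hypotheses): let `L = log X`, `T ∈ [X, 2X]`, `P = 2(log T + a)`, `Z'` the
`t ∈ Z` with `|t - T| ≤ L²`. ORT for `Z'`, `b_t = aa t e^{-(t-T)²}·(unimodular)` (so `Σ b_t e^{itv} = ZZ Z' 1 v T` up to a unimodular factor: `b_t = aa t e^{-(t-T)²}`, and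
`e^{i(t-T)v} = e^{itv} e^{-iTv}`), `η = δ/√L ≤ 1/√L`, `v0 = -L`, spacing `1/L`: `(P/2) Σ_{Z'} ‖aa t‖² e^{-2(t-T)²} ≤ ∫_{-L}^{-L+P+2} ‖ZZ Z' 1 v T‖² dv`, `P ≥ L` and
`-L + P + 2 ≤ L + 4 + 2|a|` for large `X` (`P ≤ 2L + 2 log 2 + 2a`). The `t ∈ Z \ Z'` contribute to `N2` and to `ZZ` at most
`|Z| exp(2 C L²) exp(-L⁴) ≤ 1/X` (AB, `|Z| ≤ 6XL + 1` by CNT), and `‖ZZ Z'‖² ≤ 2‖ZZ Z‖² + 2/X²`. -/
def J_N2P : Prop := RiemannHypothesis → ∀ a : ℝ, ∃ X0 : ℝ, ∀ X δ : ℝ, X0 ≤ X → 0 < δ → δ ≤ 1 →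
  HYP a δ X → ∀ Z : Finset ℝ, (∀ t ∈ Z, t ∈ Zo ∧ X / 3 ≤ t ∧ t ≤ 5 * X) → ∀ T : ℝ, X ≤ T → T ≤ 2 * X →
    N2 Z T ≤ 4 / Real.log X * (∫ v in (-Real.log X)..(Real.log X + 4 + 2 * |a|), ‖ZZ Z 1 v T‖ ^ 2) + 1

/-- SQF. Squarefree numbers. PROOF: the arithmetic function `μ²` times (Dirichlet convolution) the indicator of the squares is `1` (every `m ≥ 1` is uniquely
`n d²` with `n` squarefree); search the library (`SqFree`, `squarefree`, `LSeries`). -/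
def J_SQF : Prop := ∀ s : ℂ, 1 < s.re →
  (∑' n : ℕ, (((ArithmeticFunction.moebius n : ℤ) : ℂ)) ^ 2 * (n : ℂ) ^ (-s)) * riemannZeta (2 * s) = riemannZeta s

/-- WM. PROOF: substitute `τ = e^x` (or directly): `∫_0^{log 2} min(x, log 2 - x) e^{(s+1)x} dx`, two pieces, integrate by parts. -/
def J_WM : Prop := ∀ s : ℂ, s ≠ -1 → ∫ τ in (1 : ℝ)..2, ((wt τ : ℝ) : ℂ) * (τ : ℂ) ^ s =
  (((2 : ℂ) ^ ((s + 1) / 2) - 1) / (s + 1)) ^ 2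

/-- GI. PROOF: substitute `z = y e^x`: `y^{-s} ∫ gg 2 (x)² e^{-sx} dx`, `gg 2 x ^ 2 = e^{-x²/4}/(8π)`, Gaussian integral. -/
def J_GI : Prop := ∀ (s : ℂ) (y : ℝ), 0 < y →
  IntegrableOn (fun z : ℝ => ((gg 2 (Real.log z - Real.log y) ^ 2 : ℝ) : ℂ) * (z : ℂ) ^ (-s - 1)) (Ioi 0) ∧
  ∫ z in Ioi (0 : ℝ), ((gg 2 (Real.log z - Real.log y) ^ 2 : ℝ) : ℂ) * (z : ℂ) ^ (-s - 1) =
    (y : ℂ) ^ (-s) * (cexp (s ^ 2) / (4 * ((Real.sqrt Real.pi : ℝ) : ℂ)))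

/-- MEL0. PROOF: `H(s) = s ∫_0^{z1} B z^{-s-1} dz + s ∫_{z1}^∞ (B - S) z^{-s-1} dz + S z1^{-s}`, `z1 = max z0 1`; both integrals are analytic for `Re s > -1`
(differentiation under the integral sign, `hasDerivAt_integral_of_dominated_loc_of_deriv_le`; or Mathlib's `mellin` of the functions `B 1_{z ≤ z1}` and
`(B - S) 1_{z > z1}`: `mellin_differentiableAt_of_isBigO_rpow`, `z^{-s-1}` is `mellin` at `-s`); for `Re s > 0`, `∫_{z1}^∞ z^{-s-1} dz = z1^{-s}/s`. -/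
def J_MEL0 : Prop := ∀ (B : ℝ → ℝ) (S C z0 : ℝ), ContinuousOn B (Ioi 0) → 0 < z0 →
  (∀ z : ℝ, 0 < z → z ≤ 1 / 2 → |B z| ≤ C * z ^ 2) → (∀ z : ℝ, z0 ≤ z → |S - B z| ≤ C / z) →
  ∃ H : ℂ → ℂ, DifferentiableOn ℂ H {s : ℂ | -1 < s.re} ∧
    ∀ s : ℂ, 0 < s.re → H s = s * ∫ z in Ioi (0 : ℝ), ((B z : ℝ) : ℂ) * (z : ℂ) ^ (-s - 1)

end

end Pool.Agent.Q72.AL
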