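import Pool.Agent.Q72.AL.StmG
import Pool.Agent.Q72.AL.Stm2

/-! # Project AL (MP_f0209c_nt, helper72): assembly -/

set_option autoImplicit false

open Complex MeasureTheory Filter Topology Set
open H345 (Zo aa XX)

namespace Pool.Agent.Q72.AL

theorem main (hMEL : J_MEL) (hLIM : J_LIM) (hAH2 : J_AH2) : RiemannHypothesis → ∀ a : ℝ, ¬ SPAC a := by
  intro RH a hS
  obtain ⟨S, C, hC, h⟩ := hLIM RH a (hAH2 RH a hS)
  set K : ℝ := 2 * Real.pi * Real.exp (2 * a) with hK
  have hK0 : 0 < K := by positivity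
  refine hMEL RH S (C * K) K hK0 fun z hz => ?_
  have hz0 : 0 < z := hK0.trans_le hz
  have h1 := h (K / z) (by positivity) ((div_le_one hz0).2 hz)
  have e : K / (K / z) = z := by field_simp
  rw [e] at h1
  refine h1.trans ?_
  have h2 : (K / z) ^ 2 ≤ K / z := by
    have h3 : K / z ≤ 1 := (div_le_one hz0).2 hz
    have h4 : 0 ≤ K / z := by positivity
    nlinarith
  calc C * (K / z) ^ 2 ≤ C * (K / z) := mul_le_mul_of_nonneg_left h2 hC.le
    _ = C * K / z := by ring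

/-- the negation, in the form of the result -/
theorem of_not_spac {a : ℝ} (h : ¬ SPAC a) : ∃ ε : ℝ, 0 < ε ∧ ∃ᶠ n : ℕ in atTop, ∀ k : ℕ, 1 ≤ k →
    ε * Real.log (SG.ord n) ^ (-(3 / 2) : ℝ) <
      |(SG.ord (n + 1) - SG.ord n) * (Real.log (SG.ord n) + a) / (2 * Real.pi) - k / 2| := by
  unfold SPAC at h
  push Not at h
  obtain ⟨ε, hε, h1⟩ := h
  refine ⟨ε, hε, ?_⟩
  exact h1

end Pool.Agent.Q72.AL
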