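import Pool.Agent.Q72.AL.Stm4

/-! # Project AL (MP_f0209c_nt, helper72): assembly of the second part -/

set_option autoImplicit false

open Complex MeasureTheory Filter Topology Set
open H345 (Zo aa XX)

namespace Pool.Agent.Q72.AL

theorem notSPB (hMEL : J_MEL) (hLIM : J_LIMB) (hAH2 : J_AH2B) (RH : RiemannHypothesis) (a : ℝ) :
    ∃ ε X0 : ℝ, 0 < ε ∧ ∀ X : ℝ, X0 ≤ X → ¬ SPB a ε X := by
  by_contra hcon
  push Not at hcon
  have hfr : ∀ δ : ℝ, 0 < δ → ∃ᶠ X in (atTop : Filter ℝ), HYPB a δ X := by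
    intro δ hδ
    obtain ⟨ε, X0, hε, h⟩ := hAH2 RH a δ hδ
    rw [frequently_atTop]
    intro b
    obtain ⟨X, hX, hS⟩ := hcon ε (max X0 b) hε
    exact ⟨X, (le_max_right _ _).trans hX, h X ((le_max_left _ _).trans hX) hS⟩
  obtain ⟨S, C, hC, h⟩ := hLIM RH a hfr
  set K : ℝ := 2 * Real.pi * Real.exp (2 * a) with hK
  have hK0 : 0 < K := by positivity
  refine hMEL RH S (C * K) K hK0 fun z hz => ?_
  have hz0 : 0 < z := hK0.trans_le hz
  have h1 := h (K / z) (by positivity) ((div_le_one hz0).2 hz)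
  have e : K / (K / z) = z := by field_simp
  rw [e] at h1
  refine h1.trans ?_
  have h2 : (K / z) ^ 2 ≤ K / z := by
    have h3 : K / z ≤ 1 := (div_le_one hz0).2 hz
    have h4 : 0 ≤ K / z := by positivity
    nlinarith
  calc C * (K / z) ^ 2 ≤ C * (K / z) := mul_le_mul_of_nonneg_left h2 hC.le
    _ = C * K / z := by ring

/-- every offset `a` -/
theorem mainAB (hMEL : J_MEL) (hLIM : J_LIMB) (hAH2 : J_AH2B) (RH : RiemannHypothesis) (a : ℝ) :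
    ∃ ε X0 : ℝ, 0 < ε ∧ ∀ X : ℝ, X0 ≤ X → ∃ n : ℕ, 1 ≤ n ∧ X ≤ SG.ord n ∧ SG.ord n ≤ 384 * X ∧
      ∀ k : ℕ, 1 ≤ k → ε / Real.log (SG.ord n) <
        |(SG.ord (n + 1) - SG.ord n) * (Real.log (SG.ord n) + a) / (2 * Real.pi) - k / 2| := by
  obtain ⟨ε, X0, hε, h⟩ := notSPB hMEL hLIM hAH2 RH a
  refine ⟨ε, X0 / 16, hε, fun X hX => ?_⟩
  have h1 := h (16 * X) (by linarith)
  unfold SPB at h1
  push Not at h1
  obtain ⟨n, hn, ha, hb, hk⟩ := h1
  exact ⟨n, hn, by linarith, by linarith, hk⟩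

/-- the spacings of the problem -/
theorem mainDB (hMEL : J_MEL) (hLIM : J_LIMB) (hAH2 : J_AH2B) (hGAP : J_GAPB) (RH : RiemannHypothesis) :
    ∃ ε X0 : ℝ, 0 < ε ∧ ∀ X : ℝ, X0 ≤ X → ∃ n : ℕ, 1 ≤ n ∧ X ≤ SG.ord n ∧ SG.ord n ≤ 384 * X ∧
      ∀ k : ℕ, 1 ≤ k → ε / Real.log (SG.ord n) <
        |(SG.ord (n + 1) * Real.log (SG.ord (n + 1)) - SG.ord n * Real.log (SG.ord n)) /
          (2 * Real.pi) - k / 2| := by
  obtain ⟨ε, X0, hε, h⟩ := notSPB hMEL hLIM hAH2 RH 1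
  obtain ⟨X1, h1⟩ := hGAP (ε / 2) (by positivity)
  refine ⟨ε / 2, max X0 X1 / 16, by positivity, fun X hX => ?_⟩
  have hX' : max X0 X1 ≤ 16 * X := by linarith
  by_contra hcon
  push Not at hcon
  apply h (16 * X) ((le_max_left _ _).trans hX')
  have h2 := h1 (16 * X) ((le_max_right _ _).trans hX') (fun n hn ha hb => by
    obtain ⟨k, hk, hk2⟩ := hcon n hn (by linarith) (by linarith)
    exact ⟨k, hk, hk2⟩)
  have e : 2 * (ε / 2) = ε := by ring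
  rwa [e] at h2

end Pool.Agent.Q72.AL
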