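import Pool.Agent.Q72.AL.Stm4
import Pool.Agent.Q203.AL.AH2a
import Pool.Agent.Q44.AL.GAPB

/-!
# Project AL (MP_f0209c_nt, helper72): relative errors and bounded offsets

The hypothesis on the spacings with the weaker (relative) error `ε k / log γ` at the half-integer
`k / 2`, and with an offset `a'` near `a`. After `Pool.Agent.Q247.AL.AH1B` (helper247),
`Pool.Agent.Q149.AL.AH2B` (helper149) and `Pool.Agent.Q44.AL.GAPB` (helper44).
-/

set_option autoImplicit false

open Complex MeasureTheory Filter Topology Set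
open H345 (Zo aa XX)

namespace Pool.Agent.Q72.AL

/-- the spacings following the ordinates in `[X/16, 24X]` are within `ε k / log` of some `k / 2` -/
def SPR (a ε X : ℝ) : Prop := ∀ n : ℕ, 1 ≤ n → X / 16 ≤ SG.ord n → SG.ord n ≤ 24 * X → ∃ k : ℕ, 1 ≤ k ∧
  |(SG.ord (n + 1) - SG.ord n) * (Real.log (SG.ord n) + a) / (2 * Real.pi) - k / 2| ≤
    ε * k / Real.log (SG.ord n)

theorem spr_mono {a ε ε' X : ℝ} (h : ε ≤ ε') (hX : 16 ≤ X) (hS : SPR a ε X) : SPR a ε' X := by
  intro n hn h1 h2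
  obtain ⟨k, hk1, hk2⟩ := hS n hn h1 h2
  refine ⟨k, hk1, hk2.trans (div_le_div_of_nonneg_right (mul_le_mul_of_nonneg_right h (by positivity)) ?_)⟩
  exact Real.log_nonneg (by linarith)

theorem ah1r (h : J_ENUM) (hRH : RiemannHypothesis) (A : ℝ) (hA : 0 ≤ A) :
    ∃ X0 : ℝ, ∀ X : ℝ, X0 ≤ X → ∀ a : ℝ, |a| ≤ A → SPR a (1 / 8) X →
  (∀ t ∈ Zo, X / 16 ≤ t → t ≤ 24 * X → deriv riemannZeta (1 / 2 + (t : ℂ) * I) ≠ 0) ∧
  (∀ t ∈ Zo, ∀ t' ∈ Zo, X / 16 ≤ t → t < t' → t' ≤ 24 * X → 1 / Real.log (X / 16) ≤ t' - t) := by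
  obtain ⟨hE1, hE2, hE3⟩ := h hRH
  refine ⟨max (16 * Real.exp (2 * A + 6)) 100, fun X hX a haA hS => ?_⟩
  have hX2 : 16 * Real.exp (2 * A + 6) ≤ X := (le_max_left _ _).trans hX
  have hX3 : (100 : ℝ) ≤ X := (le_max_right _ _).trans hX
  have hlX : 2 * A + 6 ≤ Real.log (X / 16) := by
    rw [Real.le_log_iff_exp_le (by linarith)]
    linarith
  have hpos : 0 < Real.log (X / 16) := by linarith
  have key : ∀ n : ℕ, 1 ≤ n → X / 16 ≤ SG.ord n → SG.ord n ≤ 24 * X →
      1 / Real.log (X / 16) ≤ SG.ord (n + 1) - SG.ord n := by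
    intro n hn1 hn2 hn3
    have h1 : 2 ≤ (SG.ord (n + 1) - SG.ord n) * (Real.log (SG.ord n) + a) := by
      obtain ⟨k, hk, h5⟩ := hS n hn1 hn2 hn3
      have hlog : 1 ≤ Real.log (SG.ord n) := by
        rw [Real.le_log_iff_exp_le (by linarith)]
        have := Real.exp_one_lt_d9
        linarith
      have hk' : (1 : ℝ) ≤ k := by exact_mod_cast hk
      have h6 : 1 / 8 * (k : ℝ) / Real.log (SG.ord n) ≤ k / 8 := by
        rw [div_le_iff₀ (by linarith)]
        nlinarith
      have h7 : (3 / 8 : ℝ) ≤ (SG.ord (n + 1) - SG.ord n) * (Real.log (SG.ord n) + a) / (2 * Real.pi) := by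
        have := (abs_le.mp h5).1
        linarith
      rw [le_div_iff₀ (by positivity)] at h7
      have := Real.pi_gt_d2
      linarith
    have h2 : 0 ≤ SG.ord (n + 1) - SG.ord n := by
      have := SG.ord_mono hn1 (by omega : n ≤ n + 1)
      linarith
    have h3 : Real.log (SG.ord n) ≤ Real.log (X / 16) + 6 := by
      have h4 : Real.log (SG.ord n) ≤ Real.log (384 * (X / 16)) :=
        Real.log_le_log (by linarith) (by linarith)
      have h5 : Real.log (384 * (X / 16)) = Real.log 384 + Real.log (X / 16) :=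
        Real.log_mul (by norm_num) (by linarith)
      have h6 : Real.log 384 ≤ 6 := by
        rw [Real.log_le_iff_le_exp (by norm_num)]
        have h8 := Real.exp_one_gt_d9
        have h7 : Real.exp 6 = Real.exp 1 ^ 6 := by rw [← Real.exp_nat_mul]; norm_num
        rw [h7]
        calc (384 : ℝ) ≤ 2.7182 ^ 6 := by norm_num
          _ ≤ Real.exp 1 ^ 6 := by
            apply pow_le_pow_left₀ (by norm_num)
            linarith
      linarith
    have h4 : Real.log (SG.ord n) + a ≤ 2 * Real.log (X / 16) := by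
      have := le_abs_self a
      linarith
    have h5 : (SG.ord (n + 1) - SG.ord n) * (Real.log (SG.ord n) + a) ≤
        (SG.ord (n + 1) - SG.ord n) * (2 * Real.log (X / 16)) :=
      mul_le_mul_of_nonneg_left h4 h2
    rw [div_le_iff₀ hpos]
    linarith
  constructor
  · intro t ht h1 h2
    have htpos : 0 < t := by linarith
    refine hE3 t ht htpos ?_
    intro n hn1 hn2 hn3
    have := key n hn1 (by rw [hn2]; exact h1) (by rw [hn2]; exact h2)
    rw [hn2, hn3, sub_self] at this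
    have : 0 < 1 / Real.log (X / 16) := by positivity
    linarith
  · intro t ht t' ht' h1 h2 h3
    have htpos : 0 < t := by linarith
    obtain ⟨n, hn1, hn2⟩ := hE2 t ht htpos
    obtain ⟨m, hm1, hm2⟩ := hE2 t' ht' (by linarith)
    have hnm : n < m := by
      by_contra hc
      have := SG.ord_mono hm1 (not_lt.mp hc)
      rw [hn2, hm2] at this
      linarith
    have h4 := SG.ord_mono (by omega : 1 ≤ n + 1) (by omega : n + 1 ≤ m)
    have h5 := key n hn1 (by rw [hn2]; exact h1) (by rw [hn2]; linarith)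
    rw [hm2] at h4
    rw [hn2] at h5
    linarith

theorem stepR {X T u v a a' ε L : ℝ} {k : ℕ} (hX : 0 < X) (hlu1 : 1 ≤ Real.log u) (hlu : |a'| ≤ Real.log u)
    (hT : X / 8 ≤ T) (hu : X / 16 ≤ u) (hut : |u - T| ≤ L ^ 2) (hε : 0 ≤ ε) (hε1 : ε ≤ 1 / 8) (hd : 0 < v - u)
    (haa : |a' - a| ≤ ε)
    (hk : |(v - u) * (Real.log u + a') / (2 * Real.pi) - k / 2| ≤ ε * k / Real.log u) :
    |2 * (Real.log T + a) * (v - u) - 2 * Real.pi * k| ≤
      (8 * Real.pi * ε + 32 * L ^ 2 / X) * (v - u) := by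
  have hπ : 0 < Real.pi := Real.pi_pos
  have hπ3 : 3 < Real.pi := Real.pi_gt_three
  have hlu0 : 0 < Real.log u := by linarith
  have hk0 : (0 : ℝ) ≤ k := by positivity
  -- `k ≤ (4/π) (v - u) log u`
  have hkb : (k : ℝ) ≤ 4 / Real.pi * ((v - u) * Real.log u) := by
    have h1 : ε * k / Real.log u ≤ k / 8 := by
      rw [div_le_iff₀ hlu0]
      nlinarith
    have h2 := (abs_le.1 (hk.trans h1)).1
    have h3 : (v - u) * (Real.log u + a') / (2 * Real.pi) ≤ (v - u) * Real.log u / Real.pi := by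
      rw [div_le_div_iff₀ (by positivity) hπ]
      have : (v - u) * (Real.log u + a') ≤ (v - u) * (2 * Real.log u) :=
        mul_le_mul_of_nonneg_left (by linarith [le_abs_self a']) hd.le
      nlinarith
    have h4 : (k : ℝ) * (3 / 8) ≤ (v - u) * Real.log u / Real.pi := by linarith
    have h5 : 4 / Real.pi * ((v - u) * Real.log u) = 4 * ((v - u) * Real.log u / Real.pi) := by ring
    rw [h5]
    have h6 : 0 ≤ (v - u) * Real.log u / Real.pi := by positivity
    linarith
  have h4 : |2 * (Real.log u + a) * (v - u) - 2 * Real.pi * k| ≤ 8 * Real.pi * ε * (v - u) := by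
    have e : 2 * (Real.log u + a) * (v - u) - 2 * Real.pi * k =
        4 * Real.pi * ((v - u) * (Real.log u + a') / (2 * Real.pi) - k / 2) +
          2 * (a - a') * (v - u) := by
      field_simp
      ring
    rw [e]
    have e1 : |4 * Real.pi * ((v - u) * (Real.log u + a') / (2 * Real.pi) - k / 2)| ≤
        16 * ε * (v - u) := by
      rw [abs_mul, abs_of_pos (by positivity : (0 : ℝ) < 4 * Real.pi)]
      have e2 : ε * k / Real.log u ≤ ε * (4 / Real.pi * (v - u)) := by
        rw [div_le_iff₀ hlu0]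
        calc ε * k ≤ ε * (4 / Real.pi * ((v - u) * Real.log u)) :=
              mul_le_mul_of_nonneg_left hkb hε
          _ = ε * (4 / Real.pi * (v - u)) * Real.log u := by ring
      calc 4 * Real.pi * |(v - u) * (Real.log u + a') / (2 * Real.pi) - k / 2|
          ≤ 4 * Real.pi * (ε * (4 / Real.pi * (v - u))) :=
            mul_le_mul_of_nonneg_left (hk.trans e2) (by positivity)
        _ = 16 * ε * (v - u) := by
            field_simp
            ring
    have e3 : |2 * (a - a') * (v - u)| ≤ 2 * ε * (v - u) := by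
      rw [abs_mul, abs_of_pos hd, abs_mul, abs_of_pos (by norm_num : (0 : ℝ) < 2), abs_sub_comm a a']
      exact mul_le_mul_of_nonneg_right (mul_le_mul_of_nonneg_left haa (by norm_num)) hd.le
    have e4 : 0 ≤ ε * (v - u) := by positivity
    calc _ ≤ |4 * Real.pi * ((v - u) * (Real.log u + a') / (2 * Real.pi) - k / 2)| +
          |2 * (a - a') * (v - u)| := abs_add_le _ _
      _ ≤ 16 * ε * (v - u) + 2 * ε * (v - u) := add_le_add e1 e3
      _ ≤ 8 * Real.pi * ε * (v - u) := by nlinarith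
  have h6 : |Real.log T - Real.log u| ≤ 2 * L ^ 2 / (X / 8) :=
    Pool.Agent.Q203.AL.log_near (X := X / 8) (by positivity) hT (by linarith) hut
  have h7 : |2 * (Real.log T - Real.log u) * (v - u)| ≤ 32 * L ^ 2 / X * (v - u) := by
    rw [abs_mul, abs_of_pos hd, abs_mul, abs_of_pos (by norm_num : (0 : ℝ) < 2)]
    have : 2 * |Real.log T - Real.log u| ≤ 32 * L ^ 2 / X := by
      calc 2 * |Real.log T - Real.log u| ≤ 2 * (2 * L ^ 2 / (X / 8)) :=
            mul_le_mul_of_nonneg_left h6 (by norm_num)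
        _ = 32 * L ^ 2 / X := by
            field_simp
            ring
    exact mul_le_mul_of_nonneg_right this hd.le
  have e : 2 * (Real.log T + a) * (v - u) - 2 * Real.pi * k =
      (2 * (Real.log u + a) * (v - u) - 2 * Real.pi * k) +
        2 * (Real.log T - Real.log u) * (v - u) := by ring
  rw [e]
  calc _ ≤ |2 * (Real.log u + a) * (v - u) - 2 * Real.pi * k| +
        |2 * (Real.log T - Real.log u) * (v - u)| := abs_add_le _ _
    _ ≤ 8 * Real.pi * ε * (v - u) + 32 * L ^ 2 / X * (v - u) := add_le_add h4 h7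
    _ = _ := by ring

theorem ah2r (h1 : J_ENUM) (hRH : RiemannHypothesis) (a δ : ℝ) (hδ : 0 < δ) :
    ∃ ε X0 : ℝ, 0 < ε ∧ ∀ X : ℝ, X0 ≤ X → ∀ a' : ℝ, |a' - a| ≤ ε → SPR a' ε X → HYPB a δ X := by
  obtain ⟨E1, E2, -⟩ := h1 hRH
  obtain ⟨X1, hX1⟩ := ah1r h1 hRH (|a| + 1) (by positivity)
  have hπ := Real.pi_pos
  set ε : ℝ := min (δ / (16 * Real.pi)) (1 / 8) with hε
  have hε0 : 0 < ε := lt_min (by positivity) (by norm_num)
  have hε1 : ε ≤ δ / (16 * Real.pi) := min_le_left _ _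
  have hε3 : ε ≤ 1 / 8 := min_le_right _ _
  have A1 : ∀ᶠ X : ℝ in atTop, Real.log X ^ 2 ≤ δ / 64 * X := by
    have := (Real.isLittleO_pow_log_id_atTop (n := 2)).bound (by positivity : (0 : ℝ) < δ / 64)
    filter_upwards [this, eventually_ge_atTop 1] with X hX hX1
    have h0 : 0 ≤ Real.log X ^ 2 := by positivity
    rw [Real.norm_eq_abs, abs_of_nonneg h0, id, Real.norm_eq_abs, abs_of_nonneg (by linarith)] at hX
    exact hX
  have A2 : ∀ᶠ X : ℝ in atTop, Real.log X ^ 2 ≤ 1 / 8 * X := by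
    have := (Real.isLittleO_pow_log_id_atTop (n := 2)).bound (by norm_num : (0 : ℝ) < 1 / 8)
    filter_upwards [this, eventually_ge_atTop 1] with X hX hX1
    have h0 : 0 ≤ Real.log X ^ 2 := by positivity
    rw [Real.norm_eq_abs, abs_of_nonneg h0, id, Real.norm_eq_abs, abs_of_nonneg (by linarith)] at hX
    exact hX
  have A3 : ∀ᶠ X : ℝ in atTop, |a| + 1 ≤ Real.log (X / 16) :=
    (Real.tendsto_log_atTop.comp (tendsto_id.atTop_div_const (by norm_num : (0 : ℝ) < 16))).eventually_ge_atTop _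
  obtain ⟨X0, hX0'⟩ := eventually_atTop.1 (A1.and (A2.and (A3.and
    ((eventually_ge_atTop X1).and (eventually_ge_atTop 16)))))
  refine ⟨ε, X0, hε0, fun X hXX a' ha' hSP => ?_⟩
  obtain ⟨B1, B2, B3, B4, B5⟩ := hX0' X hXX
  have haA : |a'| ≤ |a| + 1 := by
    have : |a'| ≤ |a' - a| + |a| := by
      calc |a'| = |(a' - a) + a| := by ring_nf
        _ ≤ _ := abs_add_le _ _
    linarith
  set L : ℝ := Real.log X with hL
  set M : ℝ := Real.log (X / 16) with hM
  have hX0 : 0 < X := by linarith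
  have hM1 : 1 ≤ M := by linarith [abs_nonneg a]
  have hM0 : 0 < M := by linarith
  -- the constant
  have hc : 8 * Real.pi * ε + 32 * L ^ 2 / X ≤ δ := by
    have c1 : 8 * Real.pi * ε ≤ δ / 2 := by
      calc 8 * Real.pi * ε ≤ 8 * Real.pi * (δ / (16 * Real.pi)) :=
            mul_le_mul_of_nonneg_left hε1 (by positivity)
        _ = δ / 2 := by
            field_simp
            ring
    have c2 : 32 * L ^ 2 / X ≤ δ / 2 := by
      rw [div_le_iff₀ hX0]
      linarith
    linarith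
  obtain ⟨S1, S2⟩ := hX1 X B4 a' haA (spr_mono hε3 B5 hSP)
  have key : ∀ T : ℝ, X / 4 ≤ T → T ≤ 8 * X → ∀ t ∈ Zo, ∀ t' ∈ Zo, |t - T| ≤ L ^ 2 →
      |t' - T| ≤ L ^ 2 → t < t' → ∃ K : ℤ,
        |2 * (Real.log T + a) * (t' - t) - 2 * Real.pi * K| ≤ δ * (t' - t) := by
    intro T hT1 hT2 t ht t' ht' d1 d2 htt
    have t1 := abs_le.1 d1
    have t2 := abs_le.1 d2
    have tX : X / 16 ≤ t := by linarith
    have tX' : t' ≤ 24 * X := by linarith
    obtain ⟨n, hn1, hn⟩ := E2 t ht (by linarith)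
    obtain ⟨m, hm1, hm⟩ := E2 t' ht' (by linarith)
    have hnm : n < m := by
      by_contra hcon
      have := SG.ord_mono hm1 (not_lt.1 hcon)
      rw [hn, hm] at this
      linarith
    have hc' := Pool.Agent.Q203.AL.core (o := SG.ord) (c := 8 * Real.pi * ε + 32 * L ^ 2 / X)
      (A := 2 * (Real.log T + a)) hnm.le (by
        intro j hj1 hj2
        have hj0 : 1 ≤ j := hn1.trans hj1
        have m1 : t ≤ SG.ord j := hn ▸ SG.ord_mono hn1 hj1
        have m2 : SG.ord j ≤ SG.ord (j + 1) := SG.ord_mono hj0 (by omega)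
        have m3 : SG.ord (j + 1) ≤ t' := hm ▸ SG.ord_mono (by omega) (by omega)
        obtain ⟨k, hk1, hk⟩ := hSP j hj0 (by linarith) (by linarith)
        have hlu : M ≤ Real.log (SG.ord j) := by
          rw [hM]
          exact Real.log_le_log (by positivity) (by linarith)
        have hk1' : (1 : ℝ) ≤ k := by exact_mod_cast hk1
        have hlt : SG.ord j < SG.ord (j + 1) := by
          rcases m2.lt_or_eq with h | h
          · exact h
          · exfalso
            have hrp : ε * k / Real.log (SG.ord j) ≤ k / 8 := by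
              rw [div_le_iff₀ (by linarith)]
              nlinarith
            rw [← h, sub_self, zero_mul, zero_div, zero_sub, abs_neg,
              abs_of_nonneg (by positivity)] at hk
            linarith
        have hut : |SG.ord j - T| ≤ L ^ 2 := by
          rw [abs_le]
          constructor <;> linarith
        have hst := stepR (T := T) (a := a) (a' := a') (L := L) hX0 (by linarith) (by linarith)
          (by linarith) (by linarith) hut hε0.le hε3 (by linarith) ha' hk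
        exact ⟨k, by exact_mod_cast hst⟩)
    obtain ⟨K, hK⟩ := hc'
    rw [hn, hm] at hK
    exact ⟨K, hK.trans (mul_le_mul_of_nonneg_right hc (by linarith))⟩
  refine ⟨S1, S2, ?_⟩
  intro T hT1 hT2 t ht t' ht' d1 d2
  rcases lt_trichotomy t t' with h | h | h
  · obtain ⟨K, hK⟩ := key T hT1 hT2 t ht t' ht' d1 d2 h
    have h3 : |t - t'| = t' - t := by
      rw [abs_sub_comm, abs_of_pos (by linarith)]
    rw [h3]
    apply Pool.Agent.Q203.AL.exp_near (K := -K)
    have e : 2 * (Real.log T + a) * (t - t') - 2 * Real.pi * ((-K : ℤ) : ℝ) =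
        -(2 * (Real.log T + a) * (t' - t) - 2 * Real.pi * K) := by
      push_cast
      ring
    rw [e, abs_neg]
    exact hK
  · subst h
    simp
  · obtain ⟨K, hK⟩ := key T hT1 hT2 t' ht' t ht d2 d1 h
    have h3 : |t - t'| = t - t' := abs_of_pos (by linarith)
    rw [h3]
    exact Pool.Agent.Q203.AL.exp_near hK

theorem gapr (h : J_GB) (ε : ℝ) (hε : 0 < ε) : ∃ X0 : ℝ, ∀ X : ℝ, X0 ≤ X →
    (∀ n : ℕ, 1 ≤ n → X / 16 ≤ SG.ord n → SG.ord n ≤ 24 * X → ∃ k : ℕ, 1 ≤ k ∧
      |(SG.ord (n + 1) * Real.log (SG.ord (n + 1)) - SG.ord n * Real.log (SG.ord n)) / (2 * Real.pi) - k / 2| ≤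
        ε * k / Real.log (SG.ord n)) → SPR 1 (2 * ε) X := by
  obtain ⟨C, hC, hgap⟩ := h
  have hpi := Real.pi_pos
  obtain ⟨X1, hX1⟩ := Filter.eventually_atTop.1
    (Pool.Agent.Q44.AL.small1 (C ^ 2 / (2 * Real.pi)) ε (by positivity) (by positivity))
  refine ⟨max (16 * X1) 48, fun X hX H n hn hn4 hn6 => ?_⟩
  have hX2 := (le_max_left _ _).trans hX
  have hX3 := (le_max_right _ _).trans hX
  obtain ⟨k, hk, hk2⟩ := H n hn hn4 hn6
  have hn2 := hX1 (SG.ord n) (by linarith)
  refine ⟨k, hk, ?_⟩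
  have hx := SG.ord_pos hn
  have hxy : SG.ord n ≤ SG.ord (n + 1) := SG.ord_mono hn (Nat.le_succ n)
  have hg := hgap n hn
  have h3 := Pool.Agent.Q94.AL.xlogx _ _ hx hxy
  have hl0 : 0 ≤ Real.log (SG.ord n) := Real.log_nonneg (by linarith)
  have hk1 : (1 : ℝ) ≤ k := by exact_mod_cast hk
  set x := SG.ord n
  set y := SG.ord (n + 1)
  have h4 : (y - x) ^ 2 / x ≤ C ^ 2 / x := by
    apply div_le_div_of_nonneg_right _ hx.le
    apply pow_le_pow_left₀ (by linarith) hg
  have e : (y - x) * (Real.log x + 1) / (2 * Real.pi) - k / 2 =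
      ((y * Real.log y - x * Real.log x) / (2 * Real.pi) - k / 2) -
        ((y * Real.log y - x * Real.log x) - (y - x) * (Real.log x + 1)) / (2 * Real.pi) := by ring
  rw [e]
  have h5 : |((y * Real.log y - x * Real.log x) - (y - x) * (Real.log x + 1)) / (2 * Real.pi)| ≤
      C ^ 2 / (2 * Real.pi) / x := by
    rw [abs_div, abs_of_pos (by positivity : (0 : ℝ) < 2 * Real.pi), div_right_comm]
    apply div_le_div_of_nonneg_right _ (by positivity)
    exact h3.trans h4
  have h6 : ε / Real.log x ≤ ε * k / Real.log x :=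
    div_le_div_of_nonneg_right (by nlinarith) hl0
  calc _ ≤ |(y * Real.log y - x * Real.log x) / (2 * Real.pi) - k / 2| +
        |((y * Real.log y - x * Real.log x) - (y - x) * (Real.log x + 1)) / (2 * Real.pi)| := abs_sub _ _
    _ ≤ ε * k / Real.log x + ε * k / Real.log x :=
        add_le_add hk2 (h5.trans (hn2.trans h6))
    _ = 2 * ε * k / Real.log x := by ring

/-- every bounded offset `a`, with the same `ε` -/
theorem notSPR (hMEL : J_MEL) (hLIM : J_LIMB) (hE : J_ENUM) (RH : RiemannHypothesis) (A : ℝ) :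
    ∃ ε X0 : ℝ, 0 < ε ∧ ∀ X : ℝ, X0 ≤ X → ∀ a : ℝ, |a| ≤ A → ¬ SPR a ε X := by
  by_contra hcon
  push Not at hcon
  have hseq : ∀ m : ℕ, ∃ X a : ℝ, (m : ℝ) ≤ X ∧ a ∈ Icc (-A) A ∧ SPR a (1 / ((m : ℝ) + 1)) X := by
    intro m
    obtain ⟨X, hX, a, ha, hS⟩ := hcon (1 / ((m : ℝ) + 1)) m (by positivity)
    exact ⟨X, a, hX, abs_le.1 ha, hS⟩
  choose Xs as hXs has hSs using hseq
  obtain ⟨a, -, φ, hφ, hlim⟩ := isCompact_Icc.tendsto_subseq has
  have hfr : ∀ δ : ℝ, 0 < δ → ∃ᶠ X in (atTop : Filter ℝ), HYPB a δ X := by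
    intro δ hδ
    obtain ⟨ε, X0, hε, h⟩ := ah2r hE RH a δ hδ
    rw [frequently_atTop]
    intro b
    have f1 : ∀ᶠ m : ℕ in atTop, |as (φ m) - a| ≤ ε := by
      have := (Metric.tendsto_nhds.1 hlim) ε hε
      filter_upwards [this] with m hm
      rw [Real.dist_eq] at hm
      exact hm.le
    have f2 : ∀ᶠ m : ℕ in atTop, max (max X0 b) (max 16 (1 / ε)) ≤ (φ m : ℝ) :=
      (tendsto_natCast_atTop_atTop.comp hφ.tendsto_atTop).eventually_ge_atTop _
    obtain ⟨m, hm1, hm2⟩ := (f1.and f2).exists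
    have g1 : X0 ≤ (φ m : ℝ) := ((le_max_left _ _).trans (le_max_left _ _)).trans hm2
    have g2 : b ≤ (φ m : ℝ) := ((le_max_right _ _).trans (le_max_left _ _)).trans hm2
    have g3 : (16 : ℝ) ≤ (φ m : ℝ) := ((le_max_left _ _).trans (le_max_right _ _)).trans hm2
    have g4 : 1 / ε ≤ (φ m : ℝ) := ((le_max_right _ _).trans (le_max_right _ _)).trans hm2
    refine ⟨Xs (φ m), g2.trans (hXs _), h _ (g1.trans (hXs _)) (as (φ m)) hm1
      (spr_mono ?_ (g3.trans (hXs _)) (hSs _))⟩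
    rw [div_le_iff₀ (by positivity)]
    rw [div_le_iff₀ hε] at g4
    nlinarith
  obtain ⟨S, C, hC, h⟩ := hLIM RH a hfr
  set K : ℝ := 2 * Real.pi * Real.exp (2 * a) with hK
  have hK0 : 0 < K := by positivity
  refine hMEL RH S (C * K) K hK0 fun z hz => ?_
  have hz0 : 0 < z := hK0.trans_le hz
  have h1 := h (K / z) (by positivity) ((div_le_one hz0).2 hz)
  have e : K / (K / z) = z := by field_simp
  rw [e] at h1
  refine h1.trans ?_
  have h2 : (K / z) ^ 2 ≤ K / z := by
    have h3 : K / z ≤ 1 := (div_le_one hz0).2 hz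
    have h4 : 0 ≤ K / z := by positivity
    nlinarith
  calc C * (K / z) ^ 2 ≤ C * (K / z) := mul_le_mul_of_nonneg_left h2 hC.le
    _ = C * K / z := by ring

theorem mainAR (hMEL : J_MEL) (hLIM : J_LIMB) (hE : J_ENUM) (RH : RiemannHypothesis) (A : ℝ) :
    ∃ ε X0 : ℝ, 0 < ε ∧ ∀ X : ℝ, X0 ≤ X → ∀ a : ℝ, |a| ≤ A →
      ∃ n : ℕ, 1 ≤ n ∧ X ≤ SG.ord n ∧ SG.ord n ≤ 384 * X ∧
      ∀ k : ℕ, 1 ≤ k → ε * k / Real.log (SG.ord n) <
        |(SG.ord (n + 1) - SG.ord n) * (Real.log (SG.ord n) + a) / (2 * Real.pi) - k / 2| := by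
  obtain ⟨ε, X0, hε, h⟩ := notSPR hMEL hLIM hE RH A
  refine ⟨ε, X0 / 16, hε, fun X hX a ha => ?_⟩
  have h1 := h (16 * X) (by linarith) a ha
  unfold SPR at h1
  push Not at h1
  obtain ⟨n, hn, ha, hb, hk⟩ := h1
  exact ⟨n, hn, by linarith, by linarith, hk⟩

theorem mainDR (hMEL : J_MEL) (hLIM : J_LIMB) (hE : J_ENUM) (hGB : J_GB) (RH : RiemannHypothesis) :
    ∃ ε X0 : ℝ, 0 < ε ∧ ∀ X : ℝ, X0 ≤ X → ∃ n : ℕ, 1 ≤ n ∧ X ≤ SG.ord n ∧ SG.ord n ≤ 384 * X ∧
      ∀ k : ℕ, 1 ≤ k → ε * k / Real.log (SG.ord n) <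
        |(SG.ord (n + 1) * Real.log (SG.ord (n + 1)) - SG.ord n * Real.log (SG.ord n)) /
          (2 * Real.pi) - k / 2| := by
  obtain ⟨ε, X0, hε, h⟩ := notSPR hMEL hLIM hE RH 1
  obtain ⟨X1, h1⟩ := gapr hGB (ε / 2) (by positivity)
  refine ⟨ε / 2, max X0 X1 / 16, by positivity, fun X hX => ?_⟩
  have hX' : max X0 X1 ≤ 16 * X := by linarith
  by_contra hcon
  push Not at hcon
  apply h (16 * X) ((le_max_left _ _).trans hX') 1 (by simp)
  have h2 := h1 (16 * X) ((le_max_right _ _).trans hX') (fun n hn ha hb => by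
    obtain ⟨k, hk, hk2⟩ := hcon n hn (by linarith) (by linarith)
    exact ⟨k, hk, hk2⟩)
  have e : 2 * (ε / 2) = ε := by ring
  rwa [e] at h2

end Pool.Agent.Q72.AL
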