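import Pool.Agent.H345R2.Chi

/-!
# Project AL (MP_f0209c_nt, helper72): the Alternative Hypothesis with a rate is false

Assume RH. If the normalised spacings `d_n` of the zeta zeros satisfied
`dist (d_n, {1/2, 1, 3/2, ...}) = o((log γ_n)^(-3/2))` then near every height `T` the zeros would lie, up to a small
error, in one coset of the lattice of period `2π / P`, `P = 2 (log T + a)`. For the sums over zeros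
`ZZ(v) = Σ e^{-κ(γ-T)²} e^{i(γ-T)v} / ζ'(ρ)` (equal to the smoothed Möbius sums `DD(v) = Σ μ(n) n^{-1/2-iT} gg(v - log n)`
by the explicit formula) the functional equation gives `|ZZ(v)| = |ZZ(-v - log(T/2π))|` and the lattice gives
`|ZZ(v)| = |ZZ(v + P)|`; hence `|DD(log(cX), T)| = |DD(log(K T/(cX)), T)|` with `K = 2π e^{2a}`. The mean square over
`T ∈ [X, 2X]` of the left side is the diagonal one up to `O(c²)`, and that of the right side is the one of a FIXED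
Dirichlet series; so `Σ μ²(n) n^{-1} φ(log(z/n))` would be constant up to `O(z^{-2})` (`z = K/c → ∞`), which
contradicts a zero `ρ` of `ζ` (`z^{ρ/2-1}`, `Re = -3/4`).
-/

set_option autoImplicit false

open Complex MeasureTheory Filter Topology Set
open H345 (Zo aa XX)

namespace Pool.Agent.Q72.AL

noncomputable section

/-- Gaussian kernel: `(1/2π) ∫ exp(-κ u² + i x u) du` -/
def gg (κ x : ℝ) : ℝ := (2 * Real.sqrt (Real.pi * κ))⁻¹ * Real.exp (-(x ^ 2 / (4 * κ)))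

/-- coefficients `μ(n) n^{-1/2} gg(v - log n)` -/
def cf (κ v : ℝ) (n : ℕ) : ℝ :=
  ((ArithmeticFunction.moebius n : ℤ) : ℝ) * (n : ℝ) ^ (-(1 / 2) : ℝ) * gg κ (v - Real.log n)

/-- the smoothed Möbius sum `Σ μ(n) n^{-1/2-iT} gg(v - log n)` -/
def DD (κ v T : ℝ) : ℂ := ∑' n : ℕ, ((cf κ v n : ℝ) : ℂ) * cexp (-((T * Real.log n : ℝ) : ℂ) * I)

/-- the diagonal mean square -/
def AA (κ v : ℝ) : ℝ := ∑' n : ℕ, cf κ v n ^ 2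

/-- the sum over zeros -/
def ZZ (Z : Finset ℝ) (κ v T : ℝ) : ℂ :=
  ∑ t ∈ Z, aa t * ((Real.exp (-(κ * (t - T) ^ 2)) : ℝ) : ℂ) * cexp ((((t - T) * v : ℝ) : ℂ) * I)

/-- the weighted mass of the coefficients near `T` -/
def N2 (Z : Finset ℝ) (T : ℝ) : ℝ := ∑ t ∈ Z, ‖aa t‖ ^ 2 * Real.exp (-(2 * (t - T) ^ 2))

/-- logarithmic tent on `[1, 2]` -/
def wt (τ : ℝ) : ℝ := max 0 (min (Real.log τ) (Real.log 2 - Real.log τ))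

def W0 : ℝ := ∫ τ in (1 : ℝ)..2, wt τ

/-- average of `AA 2` -/
def BB (z : ℝ) : ℝ := ∫ τ in (1 : ℝ)..2, wt τ * AA 2 (Real.log z + Real.log τ)

/-- simple, spaced and in a lattice (period `2 (log T + a)` of the dual variable) near every `T ∈ [X, 2X]` -/
structure HYP (a δ X : ℝ) : Prop where
  simple : ∀ t ∈ Zo, X / 4 ≤ t → t ≤ 6 * X → deriv riemannZeta (1 / 2 + (t : ℂ) * I) ≠ 0
  spaced : ∀ t ∈ Zo, ∀ t' ∈ Zo, X / 4 ≤ t → t < t' → t' ≤ 6 * X → 1 / Real.log X ≤ t' - t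
  latt : ∀ T : ℝ, X ≤ T → T ≤ 2 * X → ∀ t ∈ Zo, ∀ t' ∈ Zo, |t - T| ≤ Real.log X ^ 2 →
    |t' - T| ≤ Real.log X ^ 2 →
    ‖cexp (((2 * (Real.log T + a) * (t - t') : ℝ) : ℂ) * I) - 1‖ ≤ δ / Real.sqrt (Real.log X) * |t - t'|

/-- `Z` is a set of zeros containing those with `X/2 ≤ t ≤ 4X`, for which the explicit formula holds -/
structure EFP (C X : ℝ) (Z : Finset ℝ) : Prop where
  sub : ∀ t ∈ Z, t ∈ Zo ∧ X / 3 ≤ t ∧ t ≤ 5 * X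
  sup : ∀ t ∈ Zo, X / 2 ≤ t → t ≤ 4 * X → t ∈ Z
  ef : ∀ κ v T : ℝ, 1 ≤ κ → κ ≤ 2 → X ≤ T → T ≤ 2 * X → |v| ≤ 3 * Real.log X →
    ‖DD κ v T - ZZ Z κ v T‖ ≤ C * (1 + Real.exp (-v)) / X

/-- the integrand of the explicit formula at `s` (`w = s - 1/2 - iT`): `exp(κ w² + v w) / ζ(s)` -/
def Ph (κ v T : ℝ) (s : ℂ) : ℂ :=
  cexp ((κ : ℂ) * (s - 1 / 2 - (T : ℂ) * I) ^ 2 + (v : ℂ) * (s - 1 / 2 - (T : ℂ) * I)) * (riemannZeta s)⁻¹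

/-! ### A. The explicit formula -/

/-- RIGHT. The line `Re s = 3/2`. PROOF: `1/ζ(s) = Σ μ(n) n^{-s}` (`ArithmeticFunction.LSeries_zeta_mul_Lseries_moebius`,
see `Pool.Agent.W915.WM.zeta_inv_right`), absolutely summable; exchange sum and integral
(`integral_tsum`/`hasSum_integral_of_summable_integral_norm`); with `w = 1 + i(y-T)` one needs
`(1/2π) ∫ exp(κ w² + (v - log n) w) dy = gg κ (v - log n)`, i.e. the Gaussian integral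
`∫ exp(κ(1+iu)² + x(1+iu)) du = √(π/κ) exp(-x²/(4κ))` (complete the square: `κ(1+iu)² + x(1+iu) = -κ(u - i(1 + x/(2κ)))² - x²/(4κ)`;
Mathlib `fourierIntegral_gaussian` / `GaussianFourier.integral_cexp_neg_mul_sq_add_const` / `integral_cexp_quadratic`), and
`n^{-s} e^{...} = n^{-1/2-iT} e^{-w log n}`. -/
def J_RIGHT : Prop := ∀ κ v T : ℝ, 0 < κ →
  Integrable (fun y : ℝ => Ph κ v T (⟨3 / 2, y⟩ : ℂ)) ∧
  DD κ v T = ((2 * Real.pi : ℝ) : ℂ)⁻¹ * ∫ y : ℝ, Ph κ v T (⟨3 / 2, y⟩ : ℂ)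

/-- LEFT. The line `Re s = -1/2`: `|1/ζ(-1/2+iy)| ≤ B |s| / (1/4 + y²) ≤ 4B/(1+|y|)` by
`Pool.Agent.W191.WM.left : T_LEFT`; `|exp(κ w² + v w)| = exp(κ (1 - (y-T)²) - v)`; and
`∫ e^{-(y-T)²} / (1+|y|) dy ≤ C/T` (split at `|y - T| ≤ T/2`). -/
def J_LEFT : Prop := ∃ C : ℝ, 0 < C ∧ ∀ κ v T : ℝ, 1 ≤ κ → κ ≤ 2 → 1 ≤ T →
  Integrable (fun y : ℝ => Ph κ v T (⟨-1 / 2, y⟩ : ℂ)) ∧
  ‖∫ y : ℝ, Ph κ v T (⟨-1 / 2, y⟩ : ℂ)‖ ≤ C * Real.exp (-v) / T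

/-- RECT. The residue theorem on `[-1/2, 3/2] × [U1, U2]`: `Pool.Agent.W565.WM.t_res : T_RES` with
`F s = (s - 1) ζ(s)` (entire; value `1` at `s = 1`; see how `Pool.Agent.W280.WM.rect` does it) and
`g s = (s - 1) exp(...)`; on RH the zeros of `F` in the rectangle (which has positive imaginary parts) are the
`1/2 + it`, `t ∈ Z` (for `Re s ≤ 0` `Pool.Agent.W280.WM.zeta_ne`, for `Re s ≥ 1` no zeros). -/
def J_RECT : Prop := RiemannHypothesis → ∀ (U1 U2 : ℝ) (Z : Finset ℝ), 1 ≤ U1 → U1 < U2 →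
  (∀ t : ℝ, t ∈ Z ↔ t ∈ Zo ∧ U1 ≤ t ∧ t ≤ U2) → U1 ∉ Zo → U2 ∉ Zo →
  (∀ t ∈ Z, deriv riemannZeta (1 / 2 + (t : ℂ) * I) ≠ 0) → ∀ κ v T : ℝ,
  (∫ x in (-1 / 2 : ℝ)..(3 / 2), Ph κ v T (⟨x, U1⟩ : ℂ)) - (∫ x in (-1 / 2 : ℝ)..(3 / 2), Ph κ v T (⟨x, U2⟩ : ℂ))
    + I * (∫ y in U1..U2, Ph κ v T (⟨3 / 2, y⟩ : ℂ)) - I * (∫ y in U1..U2, Ph κ v T (⟨-1 / 2, y⟩ : ℂ))
    = 2 * Real.pi * I * ZZ Z κ v T

/-- EF. The explicit formula. PROOF from RIGHT, LEFT, RECT: take good heights `U1 ∈ [X/3, X/3+1]` and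
`U2 ∈ [4X+1, 4X+2]` from `Pool.Agent.W915.WM.hor : T_HOR` (there also `ζ ≠ 0` at these heights, so `U1, U2 ∉ Zo`), `Z` the
zeros in `[U1, U2]` (finite: `H370.Loc.zset_finite` or `SG.ZS_finite`; a subset of `[X/3, 5X]`, contains those of `[X/2, 4X]`).
For `T ∈ [X, 2X]`, `|v| ≤ 3 log X`: on the horizontal sides `|Ph| ≤ exp(κ(1 - (U-T)²) + |v|) exp(C (log (5X))²)`
with `|U - T| ≥ X/2`, so they are `≤ 1/X`; the parts `y ∉ [U1, U2]` of the vertical lines are `≤ 1/X` in the same way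
(`|1/ζ| ≤ B` on `Re = 3/2`, `Pool.Agent.W915.WM.zeta_inv_right`; `|1/ζ| ≤ 4B` on `Re = -1/2`, `W191.WM.left`). Hence
`DD = ZZ + (2π)⁻¹ ∫_{Re s = -1/2} Ph + O(1/X)` and LEFT. -/
def J_EF : Prop := RiemannHypothesis → ∃ C X0 : ℝ, 0 < C ∧ ∀ X : ℝ, X0 ≤ X →
  (∀ t ∈ Zo, X / 4 ≤ t → t ≤ 6 * X → deriv riemannZeta (1 / 2 + (t : ℂ) * I) ≠ 0) →
  ∃ Z : Finset ℝ, EFP C X Z

/-! ### B. The functional equation -/

/-- CONJ. Differentiate `ζ(1-s) = XX(s) ζ(s)` (`H345.zeta_fe`) at the zero `ρ = 1/2 + it`: `-ζ'(1-ρ) = XX(ρ) ζ'(ρ)`, and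
`1 - ρ = conj ρ`, `ζ'(conj ρ) = conj ζ'(ρ)` (`riemannZeta_conj` and `deriv` of `conj ∘ f ∘ conj`); take inverses
(`|XX(ρ)| = 1`, `H345.Chi.norm_XX_half`; if `ζ'(ρ) = 0` both sides vanish). `XX` is differentiable at `ρ` (`H345.Chi`). -/
def J_CONJ : Prop := ∀ t ∈ Zo, aa t = -(XX (1 / 2 + (t : ℂ) * I)) * (starRingEnd ℂ) (aa t)

/-- FE. PROOF from CONJ: `ZZ(v) = -Σ conj(aa t) XX(1/2+it) e^{-κ(t-T)²} e^{i(t-T)v}`; replace `XX(1/2+it)` by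
`XX(1/2+iT) e^{i(t-T) log(T/2π)}`, error `≤ C (1+(t-T)²)/T` by `H345.XX_local` if `|t-T| ≤ T/2` and trivially (both
factors have modulus one, `(t-T)² ≥ T²/4`) otherwise; what remains is `-XX(1/2+iT) conj(ZZ(-v - log(T/2π)))`. -/
def J_FE : Prop := ∃ C T0 : ℝ, 0 < C ∧ 1 ≤ T0 ∧ ∀ (T : ℝ), T0 ≤ T → ∀ (Z : Finset ℝ), (∀ t ∈ Z, t ∈ Zo) →
  ∀ κ v : ℝ,
    |‖ZZ Z κ v T‖ - ‖ZZ Z κ (-v - Real.log (T / (2 * Real.pi))) T‖| ≤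
      C / T * ∑ t ∈ Z, ‖aa t‖ * Real.exp (-(κ * (t - T) ^ 2)) * (1 + (t - T) ^ 2)

/-! ### C. Crude bounds -/

/-- AB. `|1/ζ'(1/2+it)| ≤ exp(C (log X)²)` at a simple zero whose distance to the other zeros is `≥ 1/log X`. PROOF: `r = 1/(2 log X)`.
At the points `1/2 + x + it`, `r ≤ x ≤ 1`, all zeros (on RH they are on the line, neighbours at distance `≥ 1/log X`) are at
distance `≥ r`, so `|ζ'/ζ| ≤ C (log X)/r` there: `H370.Loc.landau` with `H370.Loc.ball_data H370.good_zeta` (centre `2 + it`, radii as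
in `H370.good_height`); so `|ζ(1/2+r+it)| ≥ exp(-C (log X)²)` by `Pool.Agent.W915.WM.low`/`zeta_inv_right`. For `0 < x ≤ r` the same
applied to `ζ(s)/(s-ρ)` (i.e. the nearest zero removed; `H370.Loc.extract`, or: the circle `|s - ρ| = r` has distance `≥ r` from
all zeros, walk on it from `ρ + r` with `|ζ'/ζ| ≤ C (log X)²`, arc length `≤ 2π r`, so `|1/ζ| ≤ exp(C (log X)²)` on the circle, and
`(s-ρ)/ζ(s)` is analytic in the disc with value `1/ζ'(ρ)` at the centre: maximum principle). -/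
def J_AB : Prop := RiemannHypothesis → ∃ C X0 : ℝ, 0 < C ∧ ∀ X : ℝ, X0 ≤ X →
  (∀ t ∈ Zo, X / 4 ≤ t → t ≤ 6 * X → deriv riemannZeta (1 / 2 + (t : ℂ) * I) ≠ 0) →
  (∀ t ∈ Zo, ∀ t' ∈ Zo, X / 4 ≤ t → t < t' → t' ≤ 6 * X → 1 / Real.log X ≤ t' - t) →
  ∀ t ∈ Zo, X / 3 ≤ t → t ≤ 5 * X → ‖aa t‖ ≤ Real.exp (C * Real.log X ^ 2)

/-- CNT. Sums over spaced sets. PROOF: at most `L + 1 ≤ 2L` points in every interval `[T + k, T + k + 1)`, `k ∈ ℤ`, on which the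
summand is `≤ C' e^{-k²/2}`-like. (Also used for bounding cardinalities: at most `L (b - a) + 1` points in `[a, b]`.) -/
def J_CNT : Prop := (∃ C : ℝ, 0 < C ∧ ∀ (L : ℝ) (Z : Finset ℝ), 1 ≤ L →
  (∀ t ∈ Z, ∀ t' ∈ Z, t < t' → 1 / L ≤ t' - t) → ∀ T : ℝ,
    ∑ t ∈ Z, Real.exp (-(2 * (t - T) ^ 2)) * (1 + (t - T) ^ 2) ^ 2 ≤ C * L) ∧
  (∀ (L a b : ℝ) (Z : Finset ℝ), 0 < L → a ≤ b → (∀ t ∈ Z, a ≤ t ∧ t ≤ b) →
  (∀ t ∈ Z, ∀ t' ∈ Z, t < t' → 1 / L ≤ t' - t) → (Z.card : ℝ) ≤ L * (b - a) + 1)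

/-- ORT. Almost orthogonality. PROOF: let `F v = Σ b_t e^{itv}` and integrate `∫_{v0+s+r}^{v0+s+r+P} |F|² dv` over `(s, r) ∈ [0,1]²`: this is
`≤ ∫_{v0}^{v0+P+2} |F|²`. Expand: the diagonal gives `P Σ|b_t|²`; the pair `t ≠ t'`, `ξ = t - t'`, gives
`b_t conj(b_t') e^{iξ v0} (e^{iPξ} - 1)/(iξ) · (∫_0^1 e^{iξs} ds)²`, of modulus `≤ |b_t||b_t'| η min(1, 4/ξ²)`; by
`|b_t||b_t'| ≤ (|b_t|²+|b_t'|²)/2` and `Σ_{t' ≠ t} min(1, 4/(t-t')²) ≤ C' L` (spacing `1/L`, `L ≥ 1`) the off-diagonal part is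
`≤ C' η L Σ|b_t|²`. Take `C = 2C'`. -/
def J_ORT : Prop := ∃ C : ℝ, 0 < C ∧ ∀ (Z : Finset ℝ) (b : ℝ → ℂ) (P L η v0 : ℝ), 1 ≤ L → 1 ≤ P → 0 ≤ η →
  (∀ t ∈ Z, ∀ t' ∈ Z, t < t' → 1 / L ≤ t' - t) →
  (∀ t ∈ Z, ∀ t' ∈ Z, ‖cexp (((P * (t - t') : ℝ) : ℂ) * I) - 1‖ ≤ η * |t - t'|) → C * η * L ≤ P →
  P / 2 * ∑ t ∈ Z, ‖b t‖ ^ 2 ≤ ∫ v in v0..(v0 + P + 2), ‖∑ t ∈ Z, b t * cexp (((t * v : ℝ) : ℂ) * I)‖ ^ 2

/-! ### D. Mean values -/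

/-- WT. PROOF: substitute `T = Xτ`; `wt τ = log τ` on `[1, √2]`, `log 2 - log τ` on `[√2, 2]`; integrate by parts twice on both pieces
(`wt(1) = wt(2) = 0`, `wt' = ±1/τ`). -/
def J_WT : Prop := (∀ τ ∈ Icc (1 : ℝ) 2, 0 ≤ wt τ ∧ wt τ ≤ 1) ∧ ContinuousOn wt (Ioi 0) ∧ 0 < W0 ∧
  ∃ C : ℝ, 0 < C ∧ ∀ X ξ : ℝ, 0 < X → ξ ≠ 0 →
    ‖∫ T in X..(2 * X), ((wt (T / X) : ℝ) : ℂ) * cexp (((T * ξ : ℝ) : ℂ) * I)‖ ≤ C / (X * ξ ^ 2)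

/-- DDB. PROOF: `n^{-1/2} gg κ (v - log n) = e^{v/2} n^{-1} φ(log n - v)`, `φ(x) = e^{x/2} gg κ x ≤ C e^{-|x|}`, and
`Σ_{n≥1} n^{-1} e^{-|log n - v|} ≤ 4` for all real `v` (terms `n ≤ e^v`: `e^{-v}` each; terms `n > e^v`: `e^v n^{-2}`); the same for the
other two sums (`n² cf² = e^{2v} n^{-1} φ₂(log n - v)`, `cf² = n^{-1} φ₃(log n - v)`). -/
def J_DDB : Prop := ∃ C : ℝ, 0 < C ∧ ∀ κ v : ℝ, 1 ≤ κ → κ ≤ 2 →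
  Summable (fun n : ℕ => |cf κ v n|) ∧ ∑' n : ℕ, |cf κ v n| ≤ C * Real.exp (v / 2) ∧
  Summable (fun n : ℕ => (n : ℝ) ^ 2 * cf κ v n ^ 2) ∧
  ∑' n : ℕ, (n : ℝ) ^ 2 * cf κ v n ^ 2 ≤ C * Real.exp (2 * v) ∧
  Summable (fun n : ℕ => cf κ v n ^ 2) ∧ AA κ v ≤ C ∧ (v ≤ 0 → AA κ v ≤ C * Real.exp (2 * v))

/-- DDC. PROOF: locally uniform convergence (`continuous_tsum` on bounded sets of `v`: for `|v| ≤ R` the term is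
`≤ C_R n^{-1/2} exp(-(log n)²/(16)) `, summable); or `continuousOn_tsum`. -/
def J_DDC : Prop := ∀ κ : ℝ, 1 ≤ κ → κ ≤ 2 → Continuous (fun p : ℝ × ℝ => DD κ p.1 p.2) ∧ Continuous (AA κ)

/-- MV. The mean value theorem. PROOF from WT, DDB: `|DD|² = Σ_{n,m} cf n cf m e^{-iT log(n/m)}` (absolutely summable), integrate
termwise. Diagonal: `X W0 AA`. Pair `n < m` (`n ≥ 1`): `log(m/n) ≥ (m-n)/m`, so the integral is `≤ C m²/(X (m-n)²)`; for `m > 2n` this is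
`≤ 4C/X` and these pairs contribute `≤ (4C/X)(Σ|cf|)²`; for `n < m ≤ 2n` use `|cf n cf m| ≤ (cf n² + cf m²)/2` and
`Σ_{k≥1} k^{-2} ≤ 2`: they contribute `≤ (C'/X) Σ n² cf n²`. -/
def J_MV : Prop := ∃ C : ℝ, 0 < C ∧ ∀ κ v X : ℝ, 1 ≤ κ → κ ≤ 2 → 1 ≤ X →
  |(∫ T in X..(2 * X), wt (T / X) * ‖DD κ v T‖ ^ 2) - X * W0 * AA κ v| ≤
    C * (Real.exp v + Real.exp (2 * v)) / X

/-- N2. PROOF from AB, CNT, ORT, MV, DDB, DDC, WT (all as hypotheses): let `L = log X`, `T ∈ [X, 2X]`, `P = 2(log T + a)`, `Z'` the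
`t ∈ Z` with `|t - T| ≤ L²`. ORT for `Z'`, `b_t = aa t e^{-(t-T)²} e^{...}`(modulus `‖aa t‖ e^{-(t-T)²}`; note
`ZZ Z' 1 v T = Σ b_t e^{itv}·(unimodular)`), `η = δ/√L ≤ 1/√L`, `v0 = -L`: `(P/2) Σ_{Z'} ‖aa t‖² e^{-2(t-T)²} ≤ ∫_{-L}^{-L+P+2} ‖ZZ Z' 1 v T‖² dv`.
The `t ∈ Z \ Z'` contribute to `N2` and to `ZZ` at most `|Z| exp(2 C L²) exp(-L⁴) ≤ 1/X` (AB, `|Z| ≤ 6XL + 1` by CNT). So
`N2 Z T ≤ (2/P) ∫_{-L}^{L+C₁} (2‖ZZ Z 1 v T‖² + 2/X²) dv + 1/X` with `C₁ = 4 + 2|a|`. By EFP `‖ZZ‖² ≤ 2‖DD‖² + 2 C0² (1+e^{-v})²/X²`.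
Integrate over `T` with the weight (Fubini for the continuous function `ZZ`; `P ≥ L`), use MV: `∫ wt ‖DD‖² ≤ X W0 AA + C(e^v+e^{2v})/X ≤ C X (1 + e^{2(v-L)}+...)`,
and `∫_{-L}^{L+C₁} (X + (e^v + e^{2v})/X + (1+e^{-v})²/X) dv ≤ C X L`. -/
def J_N2 : Prop := RiemannHypothesis → ∀ a C0 : ℝ, 0 < C0 → ∃ C X0 : ℝ, 0 < C ∧ ∀ X δ : ℝ, X0 ≤ X → 0 < δ → δ ≤ 1 →
  HYP a δ X → ∀ Z : Finset ℝ, EFP C0 X Z → ∫ T in X..(2 * X), wt (T / X) * N2 Z T ≤ C * X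

/-! ### E. The chain -/

/-- LAT. PROOF from AB, CNT: `Z'` = the `t ∈ Z` with `|t - T| ≤ L²`, `L = log X`. If `Z'` is empty all is tiny. Otherwise let `t0 ∈ Z'` be
nearest to `T`; then `|t - t0| ≤ 2|t - T|` for `t ∈ Z'`. With `P = 2(log T + a)`:
`e^{i(t-T)(v+P)} = e^{i(t-T)v} e^{iP(t0-T)} (1 + (e^{iP(t-t0)} - 1))`, so the norms differ by at most
`Σ_{Z'} ‖aa t‖ e^{-2(t-T)²} (δ/√L) 2|t-T| ≤ (δ/√L) √(N2) √(Σ_{Z'} 4 (t-T)² e^{-2(t-T)²}) ≤ C δ √N2` (Cauchy-Schwarz, CNT). The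
`t ∈ Z \ Z'` contribute `≤ 2 |Z| exp(C L²) exp(-2L⁴) ≤ 1/X` (AB, `|Z| ≤ 6XL+1`). -/
def J_LAT : Prop := RiemannHypothesis → ∀ a : ℝ, ∃ C X0 : ℝ, 0 < C ∧ ∀ X δ : ℝ, X0 ≤ X → 0 < δ → δ ≤ 1 →
  HYP a δ X → ∀ Z : Finset ℝ, (∀ t ∈ Z, t ∈ Zo ∧ X / 3 ≤ t ∧ t ≤ 5 * X) → ∀ T v : ℝ, X ≤ T → T ≤ 2 * X →
    |‖ZZ Z 2 v T‖ - ‖ZZ Z 2 (v + 2 * (Real.log T + a)) T‖| ≤ C * δ * Real.sqrt (N2 Z T) + 1 / X

/-- DIFF. PROOF from FE, LAT, CNT: `v = log(cX)`, `K = 2π e^{2a}`. `DD 2 v T → ZZ 2 v T` (EFP, error `C0 (1 + 1/(cX))/X`) `→ ZZ 2 (-v - log(T/2π)) T`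
(FE, error `≤ (C/X) √N2 √(Σ e^{-2u²}(1+u²)²) ≤ (C/X) √N2 √(C log X)`) `→ ZZ 2 (-v - log(T/2π) + 2(log T + a)) T` (LAT)
`= ZZ 2 (log(K/c) + log(T/X)) T → DD 2 (log(K/c) + log(T/X)) T` (EFP, error `C0 (1 + c/K)/X`; both `|v| ≤ 3 log X` for `X ≥ X0(c)`). -/
def J_DIFF : Prop := RiemannHypothesis → ∀ a C0 : ℝ, 0 < C0 → ∃ C : ℝ, 0 < C ∧ ∀ c : ℝ, 0 < c → c ≤ 1 →
  ∃ X0 : ℝ, ∀ X δ : ℝ, X0 ≤ X → 0 < δ → δ ≤ 1 → HYP a δ X → ∀ Z : Finset ℝ, EFP C0 X Z →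
  ∀ T : ℝ, X ≤ T → T ≤ 2 * X →
    |‖DD 2 (Real.log (c * X)) T‖ -
      ‖DD 2 (Real.log (2 * Real.pi * Real.exp (2 * a) / c) + Real.log (T / X)) T‖| ≤
      C * (δ + Real.sqrt (Real.log X) / X) * Real.sqrt (N2 Z T) + 1 / Real.sqrt X

/-- CHAIN. PROOF from EF, DIFF, N2, MV, DDB, DDC, WT: let `f, g` be the two norms in DIFF (functions of `T`, continuous), `E = |f - g|`.
`(1/X) ∫ wt E² ≤ 2C²(δ + √L/X)² (1/X)∫ wt N2 + 2/X·… ≤ C' δ²` for `X ≥ X0(c, δ)`; `(1/X) ∫ wt f² ≤ C'` by MV and DDB (`c ≤ 1`), the same for `g ≤ f + E`;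
`|∫ wt (f² - g²)| ≤ √(∫ wt E²) √(∫ wt (f+g)²)`; finally MV: `|(1/X)∫ wt f² - W0 AA 2 (log cX)| ≤ C (cX + c²X²)/X² ≤ C(c² + δ)` for large `X`. -/
def J_CHAIN : Prop := RiemannHypothesis → ∀ a : ℝ, ∃ C : ℝ, 0 < C ∧ ∀ δ : ℝ, 0 < δ → δ ≤ 1 →
  (∀ᶠ X in (atTop : Filter ℝ), HYP a δ X) → ∀ c : ℝ, 0 < c → c ≤ 1 → ∀ᶠ X in (atTop : Filter ℝ),
    |W0 * AA 2 (Real.log (c * X)) - 1 / X * ∫ T in X..(2 * X), wt (T / X) *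
      ‖DD 2 (Real.log (2 * Real.pi * Real.exp (2 * a) / c) + Real.log (T / X)) T‖ ^ 2| ≤ C * (c ^ 2 + δ)

/-- DUAL. PROOF: `T = Xτ`: the quantity is `∫_1^2 wt τ ‖DD 2 (log z + log τ) (Xτ)‖² dτ = Σ_{n,m} ∫ wt τ cf n cf m e^{-iXτ log(n/m)} dτ`
(`cf` at `v = log z + log τ`, `|cf| ≤ C_z n^{-1/2} exp(-(log n)²/16)`, summable); the diagonal gives `BB z`, each off-diagonal term tends to `0` (Riemann-Lebesgue lemma,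
`Real.tendsto_integral_exp_smul_cocompact` or integration by parts), dominated convergence for the sum (`tendsto_tsum_of_dominated_convergence`). -/
def J_DUAL : Prop := ∀ z : ℝ, 0 < z → Tendsto (fun X : ℝ => 1 / X * ∫ T in X..(2 * X), wt (T / X) *
  ‖DD 2 (Real.log z + Real.log (T / X)) T‖ ^ 2) atTop (𝓝 (BB z))

/-- LIM. PROOF from CHAIN, DUAL, DDB: for all `c ∈ (0,1]` and `δ > 0`: `limsup_X |W0 AA 2 (log cX) - BB(K/c)| ≤ C (c² + δ)`, hence `≤ C c²`. As `log(cX) → ∞`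
with `X`, both limsup and liminf (`v → ∞`) of the bounded function `W0 AA 2 v` are within `C c²` of `BB(K/c)` for every `c`; so the limit `S` exists
(Cauchy) and `|S - BB(K/c)| ≤ C c²`. -/
def J_LIM : Prop := RiemannHypothesis → ∀ a : ℝ, (∀ δ : ℝ, 0 < δ → ∀ᶠ X in (atTop : Filter ℝ), HYP a δ X) →
  ∃ S C : ℝ, 0 < C ∧ ∀ c : ℝ, 0 < c → c ≤ 1 → |S - BB (2 * Real.pi * Real.exp (2 * a) / c)| ≤ C * c ^ 2

/-! ### F. The contradiction -/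

/-- BB. PROOF from DDB, DDC, WT. -/
def J_BB : Prop := ContinuousOn BB (Ioi 0) ∧ ∃ C : ℝ, 0 < C ∧ (∀ z : ℝ, 0 < z → |BB z| ≤ C) ∧
  ∀ z : ℝ, 0 < z → z ≤ 1 / 2 → |BB z| ≤ C * z ^ 2

/-- MT. The Mellin transform. PROOF: `∫_0^∞ gg 2 (log(zτ) - log n)² z^{-s-1} dz = n^{-s} τ^s ∫ gg 2 (x)² e^{-sx} dx` (`z = n e^x/τ`),
`gg 2 x ^ 2 = e^{-x²/4}/(8π)`, `∫ gg 2 (x)² e^{-sx} dx = e^{s²}/(4√π)`; `∫_1^2 wt τ τ^s dτ = ∫_0^{log 2} min(x, log 2 - x) e^{(s+1)x} dx = ((2^{(s+1)/2} - 1)/(s+1))²`;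
`Σ μ(n)² n^{-1-s} ζ(2+2s) = ζ(1+s)` for `Re s > 0` (Euler product/convolution `μ² * (indicator of squares with coefficient 1) = 1`:
every `m` is uniquely `n d²`, `n` squarefree; search the library: `SqFree`). Everything converges absolutely (positive terms): Tonelli/Fubini. -/
def J_MT : Prop := ∀ s : ℂ, 0 < s.re → IntegrableOn (fun z : ℝ => ((BB z : ℝ) : ℂ) * (z : ℂ) ^ (-s - 1)) (Ioi 0) ∧
  (∫ z in Ioi (0 : ℝ), ((BB z : ℝ) : ℂ) * (z : ℂ) ^ (-s - 1)) * riemannZeta (2 + 2 * s) =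
    cexp (s ^ 2) / (4 * ((Real.sqrt Real.pi : ℝ) : ℂ)) * (((2 : ℂ) ^ ((s + 1) / 2) - 1) / (s + 1)) ^ 2 *
      riemannZeta (1 + s)

/-- MEL. PROOF from BB, MT: put `H(s) = ∫_0^{z1} BB z^{-s-1} dz + ∫_{z1}^∞ (BB - S) z^{-s-1} dz + S z1^{-s}/s`, `z1 = max z0 1`: analytic on `Re s > -1`, `s ≠ 0`
(by BB the first integral, `BB = O(z²)` at `0`; the second as `BB - S = O(1/z)`), equal to the Mellin transform for `Re s > 0`. By MT and the identity theorem on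
the connected open set `Re s > -1`: `(s H(s)) · ((1+2s) ζ(2+2s)) · (s+1)² = c e^{s²} (2^{(s+1)/2} - 1)² · (s ζ(1+s)) · (1+2s)` there (all factors extended analytically over the poles at `s = 0`,
`s = -1/2`). At `s = ρ/2 - 1`, `ρ` a nontrivial zero of `ζ` (`SG.exists_zero_above`; `Re ρ = 1/2` by RH, `Re s = -3/4`) the left side is `0`; on the right
`|2^{ρ/4}| = 2^{1/8} ≠ 1` and `ζ(ρ/2) ≠ 0` by RH (`Re = 1/4`, not `1/2`, not a trivial zero). -/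
def J_MEL : Prop := RiemannHypothesis → ∀ S C z0 : ℝ, 0 < z0 → (∀ z : ℝ, z0 ≤ z → |S - BB z| ≤ C / z) → False

end

end Pool.Agent.Q72.AL
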