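import Pool.Agent.Q72.AL.StmG
import Pool.Agent.Q72.AL.Stm2

/-! # Project AL (MP_f0209c_nt, helper72): versions for single windows (stronger final theorem) -/

set_option autoImplicit false

open Complex MeasureTheory Filter Topology Set
open H345 (Zo aa XX)

namespace Pool.Agent.Q72.AL

noncomputable section

/-- CHAINW: `J_CHAIN` for a single `X` (same proof). PROOF from EF, DIFF, N2, MV, DDB, DDC, WT: let `f, g` be the two norms in DIFF (functions of `T`,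
continuous), `E = |f - g|`. `(1/X) ∫ wt E² ≤ 2C²(δ + √L/X)² (1/X)∫ wt N2 + 2/X ≤ C' δ²` for `X ≥ X0(c, δ)`; `(1/X) ∫ wt f² ≤ C'` by MV and DDB (`c ≤ 1`), the same
for `g ≤ f + E`; `|∫ wt (f² - g²)| ≤ √(∫ wt E²) √(∫ wt (f+g)²)`; finally MV: `|(1/X)∫ wt f² - W0 AA 2 (log cX)| ≤ C (cX + c²X²)/X² ≤ C(c² + δ)` for large `X`. -/
def J_CHAINW : Prop := RiemannHypothesis → ∀ a : ℝ, ∃ C : ℝ, 0 < C ∧ ∀ δ c : ℝ, 0 < δ → δ ≤ 1 → 0 < c → c ≤ 1 →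
  ∃ X0 : ℝ, ∀ X : ℝ, X0 ≤ X → HYP a δ X →
    |W0 * AA 2 (Real.log (c * X)) - 1 / X * ∫ T in X..(2 * X), wt (T / X) *
      ‖DD 2 (Real.log (2 * Real.pi * Real.exp (2 * a) / c) + Real.log (T / X)) T‖ ^ 2| ≤ C * (c ^ 2 + δ)

/-- AAL. PROOF: `μ(n)² = Σ_{d² | n} μ(d)` (for `n ≥ 1`; search the library), so `AA 2 v = Σ_d μ(d) d^{-2} R(v - 2 log d)` with
`R(x) = Σ_{m ≥ 1} m^{-1} gg 2 (x - log m)²`; `R` is bounded (as in DDB) and `R(x) → ∫ gg 2 (u)² du` as `x → ∞` (Riemann sums: `Σ_m F(log m)/m` against `∫_1^∞ F(log y) dy/y`, `F(y) = gg 2 (x - y)²`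
of bounded variation; the error is `≤ C ∫ (|F| + |F'|)(log y) dy/y² ≤ C e^{-x/2}`); dominated convergence for the sum over `d` (`Σ d^{-2} < ∞`). Alternative: partial summation from
`#{n ≤ x squarefree} = (6/π²) x + O(√x)` (in the library). -/
def J_AAL : Prop := ∃ S : ℝ, Tendsto (AA 2) atTop (𝓝 S)

/-- LIMW. PROOF from CHAINW, DUAL, AAL: fix `c`; for every `δ` there are arbitrarily large `X` with `HYP a δ X`, for which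
`|W0 AA 2 (log cX) - M_X| ≤ C (c² + δ)`; `AA 2 (log cX) → S'` and `M_X → BB(K/c)` as `X → ∞`; so `|W0 S' - BB(K/c)| ≤ C (c² + δ)` for all `δ`. -/
def J_LIMW : Prop := RiemannHypothesis → ∀ a : ℝ, (∀ δ : ℝ, 0 < δ → ∃ᶠ X in (atTop : Filter ℝ), HYP a δ X) →
  ∃ S C : ℝ, 0 < C ∧ ∀ c : ℝ, 0 < c → c ≤ 1 → |S - BB (2 * Real.pi * Real.exp (2 * a) / c)| ≤ C * c ^ 2

/-- the spacings following the ordinates in `[X/4, 6X]` are near half-integers -/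
def SPW (a ε X : ℝ) : Prop := ∀ n : ℕ, 1 ≤ n → X / 4 ≤ SG.ord n → SG.ord n ≤ 6 * X → ∃ k : ℕ, 1 ≤ k ∧
  |(SG.ord (n + 1) - SG.ord n) * (Real.log (SG.ord n) + a) / (2 * Real.pi) - k / 2| ≤
    ε * Real.log (SG.ord n) ^ (-(3 / 2) : ℝ)

/-- AH1W: `J_AH1` for a single window (same proof). PROOF from ENUM: by `SPW a (1/8) X`, for `ord n ∈ [X/4, 6X]`: `(ord(n+1) - ord n)(log(ord n) + a) ≥ 2π · 3/8 > 2.3`, so
`ord (n+1) - ord n ≥ 1/log X` for large `X`; zeros `t < t'` in `[X/4, 6X]` are `ord n`, `ord m` with `n < m`; simplicity by (3) of ENUM. -/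
def J_AH1W : Prop := RiemannHypothesis → ∀ a : ℝ, ∃ X0 : ℝ, ∀ X : ℝ, X0 ≤ X → SPW a (1 / 8) X →
  (∀ t ∈ Zo, X / 4 ≤ t → t ≤ 6 * X → deriv riemannZeta (1 / 2 + (t : ℂ) * I) ≠ 0) ∧
  (∀ t ∈ Zo, ∀ t' ∈ Zo, X / 4 ≤ t → t < t' → t' ≤ 6 * X → 1 / Real.log X ≤ t' - t)

/-- AH2W: `J_AH2` for a single window (same proof, see the docstring of `J_AH2`), `ε = min (1/8) (δ/(16π))`. From ENUM, AH1W. -/
def J_AH2W : Prop := RiemannHypothesis → ∀ a δ : ℝ, 0 < δ → ∃ ε X0 : ℝ, 0 < ε ∧ ∀ X : ℝ, X0 ≤ X → SPW a ε X → HYP a δ X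

/-- GAPW: the spacings of the problem, for one window. PROOF from GB: for `f(x) = x log x`: `f(y) - f(x) = (y - x)(log x + 1) + O((y-x)²/x)`, and
`(y-x)²/x ≤ C²/x ≤ ε (log x)^{-3/2}` for `x ≥ X/4`, `X ≥ X0(ε)`. -/
def J_GAPW : Prop := ∀ ε : ℝ, 0 < ε → ∃ X0 : ℝ, ∀ X : ℝ, X0 ≤ X → (∀ n : ℕ, 1 ≤ n → X / 4 ≤ SG.ord n → SG.ord n ≤ 6 * X →
  ∃ k : ℕ, 1 ≤ k ∧
    |(SG.ord (n + 1) * Real.log (SG.ord (n + 1)) - SG.ord n * Real.log (SG.ord n)) / (2 * Real.pi) - k / 2| ≤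
      ε * Real.log (SG.ord n) ^ (-(3 / 2) : ℝ)) → SPW 1 (2 * ε) X

end

end Pool.Agent.Q72.AL
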