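import Pool.Agent.Q72.AL.Stm
import Pool.Agent.H382R2.Final0

/-! # Project AL (MP_f0209c_nt, helper72): from the spacings to the lattice hypothesis -/

set_option autoImplicit false

open Complex MeasureTheory Filter Topology Set
open H345 (Zo aa XX)

namespace Pool.Agent.Q72.AL

noncomputable section

/-! ### G. From the spacings to `HYP` (`SG.ord n` is the `n`-th ordinate, `n ≥ 1`) -/

/-- ENUM. PROOF: `Pool/Agent/H382R2/Final0.lean` (`ord_le_iff`, `NZ_add_le`, `zmult_two`, `jump_one`, `zero_reflect`, ...). (1) `NZ` jumps at `ord n`, so there is a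
zero with this ordinate, on the line by RH. (2) `n = NZ t` works. (3) a double zero at height `t` makes `NZ` jump by `≥ 2` at `t`, so `ord` takes the value `t` at two consecutive `n`. -/
def J_ENUM : Prop := RiemannHypothesis → (∀ n : ℕ, 1 ≤ n → SG.ord n ∈ Zo) ∧
  (∀ t ∈ Zo, 0 < t → ∃ n : ℕ, 1 ≤ n ∧ SG.ord n = t) ∧
  (∀ t ∈ Zo, 0 < t → (∀ n : ℕ, 1 ≤ n → SG.ord n = t → SG.ord (n + 1) ≠ t) →
    deriv riemannZeta (1 / 2 + (t : ℂ) * I) ≠ 0)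

/-- GB. Gaps between ordinates are bounded (classical, even `→ 0`). PROOF: Riemann-von Mangoldt formula with error `O(log T)` in the library (search
`NZ`, `Pool/Agent/H177R3`, `Pool/Agent/Y744`, `Pool/Agent/Y763/AH`), so `NZ(T + C) > NZ T` for large `T`. -/
def J_GB : Prop := ∃ C : ℝ, 0 < C ∧ ∀ n : ℕ, 1 ≤ n → SG.ord (n + 1) - SG.ord n ≤ C

/-- the hypothesis on the spacings -/
def SPAC (a : ℝ) : Prop := ∀ ε : ℝ, 0 < ε → ∀ᶠ n : ℕ in atTop, ∃ k : ℕ, 1 ≤ k ∧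
  |(SG.ord (n + 1) - SG.ord n) * (Real.log (SG.ord n) + a) / (2 * Real.pi) - k / 2| ≤
    ε * Real.log (SG.ord n) ^ (-(3 / 2) : ℝ)

/-- AH1. PROOF from ENUM: by `SPAC a` with `ε = 1/8`, for all large `n`: `(ord(n+1) - ord n)(log(ord n) + a) ≥ 2π · 3/8 > 2.3`, so `ord (n+1) - ord n ≥ 2/log(6X)·…≥ 1/log X`
when `ord n ≤ 6X`, `X` large; zeros `t < t'` in `[X/4, 6X]` are `ord n`, `ord m` with `n < m`; simplicity by (3) of ENUM. -/
def J_AH1 : Prop := RiemannHypothesis → ∀ a : ℝ, SPAC a → ∃ X0 : ℝ, ∀ X : ℝ, X0 ≤ X →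
  (∀ t ∈ Zo, X / 4 ≤ t → t ≤ 6 * X → deriv riemannZeta (1 / 2 + (t : ℂ) * I) ≠ 0) ∧
  (∀ t ∈ Zo, ∀ t' ∈ Zo, X / 4 ≤ t → t < t' → t' ≤ 6 * X → 1 / Real.log X ≤ t' - t)

/-- AH2. PROOF from ENUM, AH1: let `t = ord n < t' = ord m`, both within `L²` of `T ∈ [X, 2X]` (`L = log X`). For `n ≤ j < m`:
`(ord(j+1) - ord j) · 2(log ord j + a) = 2π k_j + 4π ε_j`, `|ε_j| ≤ ε (log ord j)^{-3/2} ≤ 2 ε L^{-3/2}`; replacing `log ord j` by `log T` changes the left side by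
`≤ 2 (ord(j+1) - ord j) · 2L²/X`. Sum over `j`: `2(log T + a)(t' - t) = 2π K + O(ε L^{-3/2} (m - n)) + O((t'-t) 4L²/X)`, `m - n ≤ L (t' - t)` by the spacing, so the error is
`≤ (8π ε L^{-1/2} + 4L²/X)(t' - t) ≤ δ L^{-1/2} (t'-t)` if `ε = δ/(16π)` and `X` is large; `|e^{ix} - 1| ≤ |x|`. -/
def J_AH2 : Prop := RiemannHypothesis → ∀ a : ℝ, SPAC a → ∀ δ : ℝ, 0 < δ → ∀ᶠ X in (atTop : Filter ℝ), HYP a δ X

/-- GAP. The spacings of the problem. PROOF from GB: for `f(x) = x log x`: `f(y) - f(x) = (y - x)(log x + 1) + O((y-x)²/x)`, and `(y-x)²/x ≤ C²/x = o((log x)^{-3/2})`. -/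
def J_GAP : Prop := (∀ ε : ℝ, 0 < ε → ∀ᶠ n : ℕ in atTop, ∃ k : ℕ, 1 ≤ k ∧
    |(SG.ord (n + 1) * Real.log (SG.ord (n + 1)) - SG.ord n * Real.log (SG.ord n)) / (2 * Real.pi) - k / 2| ≤
      ε * Real.log (SG.ord n) ^ (-(3 / 2) : ℝ)) → SPAC 1

end

end Pool.Agent.Q72.AL
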